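import Mathlib

open MeasureTheory ProbabilityTheory Set Filter Topology
open scoped ENNReal

namespace Pool.Agent.Helper964.Cons

variable {S : Type*} [MeasurableSpace S]

/-- Put a new first coordinate in front of a sequence. -/
def cons (p : S × (ℕ → S)) : ℕ → S := fun n => Nat.casesOn n p.1 p.2

@[simp] lemma cons_zero (p : S × (ℕ → S)) : cons p 0 = p.1 := rfl
@[simp] lemma cons_succ (p : S × (ℕ → S)) (n : ℕ) : cons p (n + 1) = p.2 n := rfl

lemma measurable_cons : Measurable (cons : S × (ℕ → S) → (ℕ → S)) := by
  refine measurable_pi_lambda _ fun n => ?_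
  cases n with
  | zero => exact measurable_fst
  | succ n => exact (measurable_pi_apply n).comp measurable_snd

lemma map_cons (ν : Measure S) [IsProbabilityMeasure ν] :
    (ν.prod (Measure.infinitePi fun _ : ℕ => ν)).map cons = Measure.infinitePi fun _ : ℕ => ν := by
  classical
  refine Measure.eq_infinitePi _ fun s t ht => ?_
  obtain ⟨N, hN⟩ := s.exists_nat_subset_range
  set t' : ℕ → Set S := fun i => if i ∈ s then t i else univ with ht'
  have ht'm : ∀ i, MeasurableSet (t' i) := by
    intro i; simp only [ht']; split_ifs
    · exact ht i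
    · exact MeasurableSet.univ
  have e1 : Set.pi (s : Set ℕ) t = Set.pi (Finset.range (N + 1) : Set ℕ) t' := by
    ext x
    simp only [Set.mem_pi, Finset.mem_coe, ht']
    constructor
    · intro h i _
      by_cases hi : i ∈ s
      · simp [hi, h i hi]
      · simp [hi]
    · intro h i hi
      have := h i (by
        have := hN hi
        simp at this ⊢; omega)
      simpa [hi] using this
  have e2 : ∏ i ∈ s, ν (t i) = ∏ i ∈ Finset.range (N + 1), ν (t' i) := by
    rw [← Finset.prod_subset (s₁ := s) (s₂ := Finset.range (N + 1))]
    · refine Finset.prod_congr rfl fun i hi => by simp [ht', hi]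
    · intro i hi
      have := hN hi
      simp at this ⊢; omega
    · intro i _ hi
      simp [ht', hi]
  rw [e1, e2, Finset.prod_range_succ', Measure.map_apply measurable_cons
    (MeasurableSet.pi (Finset.countable_toSet _) fun i _ => ht'm i)]
  have e3 : cons ⁻¹' (Set.pi (Finset.range (N + 1) : Set ℕ) t') =
      (t' 0) ×ˢ (Set.pi (Finset.range N : Set ℕ) (fun i => t' (i + 1))) := by
    ext p
    simp only [Set.mem_preimage, Set.mem_pi, Finset.mem_coe, Finset.mem_range, Set.mem_prod]
    constructor
    · intro h
      refine ⟨h 0 (by omega), fun i hi => h (i + 1) (by omega)⟩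
    · rintro ⟨h0, h1⟩ i hi
      cases i with
      | zero => exact h0
      | succ i => exact h1 i (by omega)
  rw [e3, Measure.prod_prod, Measure.infinitePi_pi _ (fun i _ => ht'm (i + 1)), mul_comm]

end Pool.Agent.Helper964.Cons
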