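import Mathlib
import Pool.Agent.Helper964.Cons

open MeasureTheory ProbabilityTheory Set Filter Topology
open scoped ENNReal

namespace Pool.Agent.Helper964.Copolymer

open Pool.Agent.Helper964.Cons

/-! ### Definitions of the model -/

/-- Inter-arrival law: `K n > 0` for `n ≥ 1`, total mass one, and `K n ~ c n^{-(1+α)}`. -/
structure IsInterarrival (K : ℕ → ℝ) (α : ℝ) : Prop where
  alpha_pos : 0 < α
  zero : K 0 = 0
  pos : ∀ n, 1 ≤ n → 0 < K n
  hasSum : HasSum K 1
  tail : ∃ c : ℝ, 0 < c ∧ Tendsto (fun n : ℕ => K n * (n : ℝ) ^ (1 + α)) atTop (𝓝 c)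

/-- The pairs (gap, sign) are independent, the gaps have law `K`, and each sign is a fair
`{0,1}`-valued variable independent of the gap. -/
structure IsSignedRenewal {Ω : Type*} [MeasurableSpace Ω] (P : Measure Ω) (K : ℕ → ℝ)
    (T ζ : ℕ → Ω → ℕ) : Prop where
  meas_T : ∀ i, Measurable (T i)
  meas_ζ : ∀ i, Measurable (ζ i)
  indep : iIndepFun (fun i w => (T i w, ζ i w)) P
  law : ∀ i n, P {w | T i w = n ∧ ζ i w = 0} = ENNReal.ofReal (K n / 2) ∧
    P {w | T i w = n ∧ ζ i w = 1} = ENNReal.ofReal (K n / 2)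

/-- The renewal points `τ_i = T_0 + ... + T_{i-1}`. -/
def tau {Ω : Type*} (T : ℕ → Ω → ℕ) (i : ℕ) (w : Ω) : ℕ := ∑ j ∈ Finset.range i, T j w

/-- `Δ_n = ζ_i` for `n` in the `i`-th excursion `(τ_i, τ_{i+1}]`. -/
noncomputable def Delta {Ω : Type*} (T ζ : ℕ → Ω → ℕ) (n : ℕ) (w : Ω) : ℝ :=
  open Classical in
  if ∃ i, tau T i w < n ∧ n ≤ tau T (i + 1) w ∧ ζ i w = 1 then 1 else 0

/-- The Boltzmann weight `exp (-2 λ ∑_{n=1}^N (ω_n + h) Δ_n)`. -/
noncomputable def weight {Ω : Type*} (T ζ : ℕ → Ω → ℕ) (lam h : ℝ) (om : ℕ → ℝ) (N : ℕ)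
    (w : Ω) : ℝ :=
  Real.exp (-2 * lam * ∑ n ∈ Finset.Icc 1 N, (om n + h) * Delta T ζ n w)

/-- The partition function `Z_{N,ω}`. -/
noncomputable def Z {Ω : Type*} [MeasurableSpace Ω] (P : Measure Ω) (T ζ : ℕ → Ω → ℕ)
    (lam h : ℝ) (om : ℕ → ℝ) (N : ℕ) : ℝ :=
  ∫ w, weight T ζ lam h om N w ∂P

/-- The polymer probability `P_{N,ω}(A)`. -/
noncomputable def polymer {Ω : Type*} [MeasurableSpace Ω] (P : Measure Ω) (T ζ : ℕ → Ω → ℕ)
    (lam h : ℝ) (om : ℕ → ℝ) (N : ℕ) (A : Set Ω) : ℝ :=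
  (∫ w in A, weight T ζ lam h om N w ∂P) / Z P T ζ lam h om N

/-- The event that `Δ_n = 0` for every integer `n` in `[ε N, N]`. -/
def upEvent {Ω : Type*} (T ζ : ℕ → Ω → ℕ) (ε : ℝ) (N : ℕ) : Set Ω :=
  {w | ∀ n : ℕ, ε * N ≤ n → n ≤ N → Delta T ζ n w = 0}

/-- The delocalized region: `λ ≥ 0`, `h ≥ 0` and the free energy vanishes. -/
def deloc {Ω Ω' : Type*} [MeasurableSpace Ω] [MeasurableSpace Ω'] (P : Measure Ω)
    (T ζ : ℕ → Ω → ℕ) (Q : Measure Ω') (om : ℕ → Ω' → ℝ) : Set (ℝ × ℝ) :=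
  {p | 0 ≤ p.1 ∧ 0 ≤ p.2 ∧ Tendsto (fun N : ℕ =>
    (1 / (N : ℝ)) * ∫ v, Real.log (Z P T ζ p.1 p.2 (fun n => om n v) N) ∂Q) atTop (𝓝 0)}

/-! ### The canonical process -/

/-- canonical gaps -/
def Tc (i : ℕ) (x : ℕ → ℕ × ℕ) : ℕ := (x i).1
/-- canonical signs -/
def Zc (i : ℕ) (x : ℕ → ℕ × ℕ) : ℕ := (x i).2

/-- site `n` lies in a negative excursion -/
def Dl (n : ℕ) (x : ℕ → ℕ × ℕ) : Prop :=
  ∃ i, tau Tc i x < n ∧ n ≤ tau Tc (i + 1) x ∧ Zc i x = 1

open Classical in
/-- product weight -/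
noncomputable def F (N : ℕ) (G : ℕ → ℝ) (x : ℕ → ℕ × ℕ) : ℝ :=
  ∏ n ∈ Finset.range N, (if Dl (n + 1) x then G n else 1)

lemma tau_cons (t s : ℕ) (y : ℕ → ℕ × ℕ) (i : ℕ) :
    tau Tc (i + 1) (cons ((t, s), y)) = t + tau Tc i y := by
  unfold tau
  rw [Finset.sum_range_succ', add_comm]
  simp [Tc]

lemma Dl_cons_le {t s : ℕ} (y : ℕ → ℕ × ℕ) {n : ℕ} (hn : 1 ≤ n) (hnt : n ≤ t) :
    Dl n (cons ((t, s), y)) ↔ s = 1 := by
  constructor
  · rintro ⟨i, h1, _, h3⟩
    cases i with
    | zero => simpa [Zc] using h3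
    | succ i => rw [tau_cons] at h1; omega
  · intro hs
    refine ⟨0, ?_, ?_, ?_⟩
    · simp [tau]; omega
    · rw [tau_cons]; omega
    · simpa [Zc] using hs

lemma Dl_cons_gt {t s : ℕ} (y : ℕ → ℕ × ℕ) {n : ℕ} (hn : 1 ≤ n) :
    Dl (n + t) (cons ((t, s), y)) ↔ Dl n y := by
  constructor
  · rintro ⟨i, h1, h2, h3⟩
    cases i with
    | zero =>
      rw [tau_cons] at h2
      simp [tau] at h2
      omega
    | succ i =>
      refine ⟨i, ?_, ?_, ?_⟩
      · rw [tau_cons] at h1; omega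
      · rw [tau_cons] at h2; omega
      · simpa [Zc] using h3
  · rintro ⟨i, h1, h2, h3⟩
    refine ⟨i + 1, ?_, ?_, ?_⟩
    · rw [tau_cons]; omega
    · rw [tau_cons]; omega
    · simpa [Zc] using h3

open Classical in
lemma F_cons_lt {t s : ℕ} (y : ℕ → ℕ × ℕ) (N : ℕ) (G : ℕ → ℝ) (htN : t < N) :
    F N G (cons ((t, s), y)) =
      (if s = 1 then ∏ n ∈ Finset.range t, G n else 1) * F (N - t) (fun n => G (n + t)) y := by
  obtain ⟨m, rfl⟩ : ∃ m, N = t + m := ⟨N - t, by omega⟩
  unfold F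
  rw [Finset.prod_range_add, show t + m - t = m by omega]
  congr 1
  · have : ∀ n ∈ Finset.range t, (if Dl (n + 1) (cons ((t, s), y)) then G n else 1) =
        if s = 1 then G n else 1 := by
      intro n hn
      have hn' := Finset.mem_range.1 hn
      simp only [Dl_cons_le y (show 1 ≤ n + 1 by omega) (show n + 1 ≤ t by omega)]
    rw [Finset.prod_congr rfl this]
    split_ifs <;> simp
  · refine Finset.prod_congr rfl fun n _ => ?_
    have := Dl_cons_gt (t := t) (s := s) y (n := n + 1) (by omega)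
    rw [show n + 1 + t = n + t + 1 by ring] at this
    simp only [add_comm t n, this]

open Classical in
lemma F_cons_ge {t s : ℕ} (y : ℕ → ℕ × ℕ) (N : ℕ) (G : ℕ → ℝ) (htN : N ≤ t) :
    F N G (cons ((t, s), y)) =
      (if s = 1 then ∏ n ∈ Finset.range N, G n else 1) := by
  unfold F
  have : ∀ n ∈ Finset.range N, (if Dl (n + 1) (cons ((t, s), y)) then G n else 1) =
      if s = 1 then G n else 1 := by
    intro n hn
    have hn' := Finset.mem_range.1 hn
    simp only [Dl_cons_le y (show 1 ≤ n + 1 by omega) (show n + 1 ≤ t by omega)]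
  rw [Finset.prod_congr rfl this]
  split_ifs <;> simp

lemma measurable_tau (i : ℕ) : Measurable (tau Tc i) := by
  unfold tau
  exact Finset.measurable_sum _ fun j _ => measurable_fst.comp (measurable_pi_apply j)

lemma measurableSet_Dl (n : ℕ) : MeasurableSet {x | Dl n x} := by
  have : {x | Dl n x} = ⋃ i, ({x | tau Tc i x < n} ∩ {x | n ≤ tau Tc (i + 1) x} ∩
      {x | Zc i x = 1}) := by
    ext x; simp [Dl, and_assoc]
  rw [this]
  refine MeasurableSet.iUnion fun i => ?_
  refine ((measurableSet_lt (measurable_tau i) measurable_const).inter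
    (measurableSet_le measurable_const (measurable_tau (i + 1)))).inter ?_
  exact measurableSet_eq_fun (measurable_snd.comp (measurable_pi_apply i)) measurable_const

lemma measurable_F (N : ℕ) (G : ℕ → ℝ) : Measurable (F N G) := by
  unfold F
  refine Finset.measurable_prod _ fun n _ => ?_
  exact Measurable.ite (measurableSet_Dl _) measurable_const measurable_const

lemma abs_F_le (N : ℕ) (G : ℕ → ℝ) (x : ℕ → ℕ × ℕ) :
    |F N G x| ≤ ∏ n ∈ Finset.range N, (|G n| + 1) := by
  unfold F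
  rw [Finset.abs_prod]
  refine Finset.prod_le_prod (fun _ _ => abs_nonneg _) fun n _ => ?_
  split_ifs
  · linarith
  · simp

lemma F_nonneg (N : ℕ) {G : ℕ → ℝ} (hG : ∀ n, 0 ≤ G n) (x : ℕ → ℕ × ℕ) : 0 ≤ F N G x := by
  unfold F
  refine Finset.prod_nonneg fun n _ => ?_
  split_ifs
  · exact hG n
  · exact zero_le_one

lemma integrable_F {π : Measure (ℕ → ℕ × ℕ)} [IsFiniteMeasure π] (N : ℕ) (G : ℕ → ℝ) :
    Integrable (F N G) π := by
  refine Integrable.of_bound (measurable_F N G).aestronglyMeasurable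
    (∏ n ∈ Finset.range N, (|G n| + 1)) (Eventually.of_forall fun x => ?_)
  rw [Real.norm_eq_abs]
  exact abs_F_le N G x

/-! ### The block law -/

/-- law of one (gap, sign) pair -/
structure IsBlockLaw (ν : Measure (ℕ × ℕ)) (K : ℕ → ℝ) : Prop where
  prob : IsProbabilityMeasure ν
  law : ∀ n, ν {(n, 0)} = ENNReal.ofReal (K n / 2) ∧ ν {(n, 1)} = ENNReal.ofReal (K n / 2)

lemma IsBlockLaw.null {ν : Measure (ℕ × ℕ)} {K : ℕ → ℝ} {α : ℝ} (hK : IsInterarrival K α)
    (hν : IsBlockLaw ν K) (n s : ℕ) (hs : 2 ≤ s) : ν {(n, s)} = 0 := by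
  have := hν.prob
  have hK0 : ∀ n, 0 ≤ K n := fun n => by
    rcases Nat.eq_zero_or_pos n with h | h
    · rw [h, hK.zero]
    · exact (hK.pos n h).le
  have h1 : ν {p : ℕ × ℕ | p.2 ≤ 1} = 1 := by
    have e : {p : ℕ × ℕ | p.2 ≤ 1} = ⋃ n, ({(n, 0)} ∪ {(n, 1)} : Set (ℕ × ℕ)) := by
      ext ⟨a, b⟩
      simp only [mem_ofPred_eq, mem_iUnion, mem_union, mem_singleton_iff, Prod.mk.injEq]
      constructor
      · intro h
        refine ⟨a, ?_⟩
        have : b = 0 ∨ b = 1 := by omega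
        simpa using this
      · rintro ⟨i, h⟩; omega
    rw [e, measure_iUnion]
    · have : ∀ n, ν ({(n, 0)} ∪ {(n, 1)} : Set (ℕ × ℕ)) = ENNReal.ofReal (K n) := by
        intro n
        rw [measure_union (by simp) (measurableSet_singleton _), (hν.law n).1, (hν.law n).2,
          ← ENNReal.ofReal_add (by have := hK0 n; positivity) (by have := hK0 n; positivity)]
        congr 1; ring
      simp only [this]
      rw [← ENNReal.ofReal_tsum_of_nonneg hK0 hK.hasSum.summable, hK.hasSum.tsum_eq]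
      simp
    · intro i j hij
      rw [Function.onFun, Set.disjoint_left]
      rintro ⟨a, b⟩ h h'
      simp only [mem_union, mem_singleton_iff, Prod.mk.injEq] at h h'
      omega
    · intro i
      exact (measurableSet_singleton _).union (measurableSet_singleton _)
  have h2 : ν {p : ℕ × ℕ | p.2 ≤ 1}ᶜ = 0 := by
    rw [measure_compl (Set.to_countable _).measurableSet (measure_ne_top _ _), h1, measure_univ]
    simp
  refine measure_mono_null ?_ h2
  rintro p hp
  rw [mem_singleton_iff] at hp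
  subst hp
  simp; omega

lemma IsBlockLaw.integral {ν : Measure (ℕ × ℕ)} {K : ℕ → ℝ} {α : ℝ} (hK : IsInterarrival K α)
    (hν : IsBlockLaw ν K) {J : ℕ × ℕ → ℝ} {C : ℝ} (hJ : ∀ p, |J p| ≤ C) :
    ∫ p, J p ∂ν = ∑' n, K n / 2 * (J (n, 0) + J (n, 1)) := by
  have := hν.prob
  have hK0 : ∀ n, 0 ≤ K n := fun n => by
    rcases Nat.eq_zero_or_pos n with h | h
    · rw [h, hK.zero]
    · exact (hK.pos n h).le
  have hint : Integrable J ν := by
    refine Integrable.of_bound (measurable_of_countable J).aestronglyMeasurable C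
      (Eventually.of_forall fun x => ?_)
    rw [Real.norm_eq_abs]; exact hJ x
  rw [integral_countable hint]
  have hsum : Summable fun p : ℕ × ℕ => ν.real {p} • J p := by
    have h1 : Summable fun p : ℕ × ℕ => ν.real {p} := by
      have : ∑' p : ℕ × ℕ, ν {p} ≠ ∞ := by
        rw [← measure_iUnion (f := fun p : ℕ × ℕ => ({p} : Set (ℕ × ℕ)))]
        · exact measure_ne_top _ _
        · intro i j hij
          simpa [Function.onFun] using hij
        · exact fun i => measurableSet_singleton _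
      exact ENNReal.summable_toReal this
    refine Summable.of_norm_bounded (g := fun p => ν.real {p} * C) (h1.mul_right C) fun p => ?_
    rw [norm_smul, Real.norm_eq_abs, Real.norm_eq_abs, abs_of_nonneg measureReal_nonneg]
    exact mul_le_mul_of_nonneg_left (hJ p) measureReal_nonneg
  rw [hsum.tsum_prod]
  refine tsum_congr fun n => ?_
  rw [tsum_eq_sum (s := {0, 1})]
  · rw [Finset.sum_pair (by norm_num)]
    simp only [Measure.real, (hν.law n).1, (hν.law n).2, smul_eq_mul]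
    rw [ENNReal.toReal_ofReal (by have := hK0 n; positivity)]
    ring
  · intro s hs
    have h2 : 2 ≤ s := by
      simp only [Finset.mem_insert, Finset.mem_singleton, not_or] at hs
      omega
    simp [Measure.real, hν.null hK n s h2]

/-! ### The recursion -/

/-- tail of the inter-arrival law, `P(τ_1 ≥ N)` -/
noncomputable def gapTail (K : ℕ → ℝ) (N : ℕ) : ℝ := ∑' n, K (n + N)

/-- The functional defined by the first-block recursion. -/
noncomputable def V (k p : ℕ → ℝ) (N : ℕ) (G : ℕ → ℝ) : ℝ :=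
  (∑ j : Fin (N - 1), k (j + 1) * (1 + ∏ n ∈ Finset.range (j + 1), G n) *
    V k p (N - (j + 1)) (fun n => G (n + (j + 1)))) + p N * (1 + ∏ n ∈ Finset.range N, G n)
termination_by N
decreasing_by
  have := j.2
  omega

lemma V_eq (k p : ℕ → ℝ) (N : ℕ) (G : ℕ → ℝ) :
    V k p N G = (∑ j ∈ Finset.range (N - 1), k (j + 1) * (1 + ∏ n ∈ Finset.range (j + 1), G n) *
      V k p (N - (j + 1)) (fun n => G (n + (j + 1)))) +
      p N * (1 + ∏ n ∈ Finset.range N, G n) := by
  rw [V, Finset.sum_range]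

/-- the partition function of the canonical process -/
noncomputable def Wc (ν : Measure (ℕ × ℕ)) (N : ℕ) (G : ℕ → ℝ) : ℝ :=
  ∫ x, F N G x ∂(Measure.infinitePi fun _ : ℕ => ν)

lemma Wc_eq {ν : Measure (ℕ × ℕ)} {K : ℕ → ℝ} {α : ℝ} (hK : IsInterarrival K α)
    (hν : IsBlockLaw ν K) (N : ℕ) (hN : 1 ≤ N) (G : ℕ → ℝ) :
    Wc ν N G = (∑ j ∈ Finset.range (N - 1), K (j + 1) / 2 *
      (1 + ∏ n ∈ Finset.range (j + 1), G n) * Wc ν (N - (j + 1)) (fun n => G (n + (j + 1)))) +
      gapTail K N / 2 * (1 + ∏ n ∈ Finset.range N, G n) := by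
  have := hν.prob
  set π : Measure (ℕ → ℕ × ℕ) := Measure.infinitePi fun _ : ℕ => ν with hπ
  have h1 : Wc ν N G = ∫ p, (∫ y, F N G (cons (p, y)) ∂π) ∂ν := by
    unfold Wc
    rw [← map_cons ν, integral_map measurable_cons.aemeasurable
      (measurable_F N G).aestronglyMeasurable, integral_prod]
    refine Integrable.of_bound ((measurable_F N G).comp measurable_cons).aestronglyMeasurable
      (∏ n ∈ Finset.range N, (|G n| + 1)) (Eventually.of_forall fun x => ?_)
    rw [Real.norm_eq_abs]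
    exact abs_F_le N G _
  rw [h1]
  have hbound : ∀ p : ℕ × ℕ, |∫ y, F N G (cons (p, y)) ∂π| ≤ ∏ n ∈ Finset.range N, (|G n| + 1) := by
    intro p
    rw [← Real.norm_eq_abs]
    refine (norm_integral_le_of_norm_le_const (Eventually.of_forall fun y => ?_)).trans
      (le_of_eq (by simp [Measure.real] : (∏ n ∈ Finset.range N, (|G n| + 1)) * π.real univ = _))
    rw [Real.norm_eq_abs]
    exact abs_F_le N G _
  rw [IsBlockLaw.integral hK hν hbound]
  set f : ℕ → ℝ := fun n => K n / 2 * ((∫ y, F N G (cons ((n, 0), y)) ∂π) +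
    ∫ y, F N G (cons ((n, 1), y)) ∂π) with hf
  have hlt : ∀ n < N, f n = K n / 2 * (1 + ∏ m ∈ Finset.range n, G m) *
      Wc ν (N - n) (fun m => G (m + n)) := by
    intro n hn
    simp only [hf]
    have e0 : ∀ y, F N G (cons ((n, 0), y)) = F (N - n) (fun m => G (m + n)) y := by
      intro y; rw [F_cons_lt y N G hn]; simp
    have e1 : ∀ y, F N G (cons ((n, 1), y)) =
        (∏ m ∈ Finset.range n, G m) * F (N - n) (fun m => G (m + n)) y := by
      intro y; rw [F_cons_lt y N G hn]; simp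
    simp only [e0, e1, integral_const_mul, Wc]
    ring
  have hge : ∀ n, f (n + N) = K (n + N) / 2 * (1 + ∏ m ∈ Finset.range N, G m) := by
    intro n
    simp only [hf]
    have e0 : ∀ y, F N G (cons ((n + N, 0), y)) = 1 := by
      intro y; rw [F_cons_ge y N G (by omega)]; simp
    have e1 : ∀ y, F N G (cons ((n + N, 1), y)) = ∏ m ∈ Finset.range N, G m := by
      intro y; rw [F_cons_ge y N G (by omega)]; simp
    simp only [e0, e1]
    simp
  have hsumf : Summable f := by
    refine (summable_nat_add_iff N).1 ?_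
    simp only [hge]
    exact (((summable_nat_add_iff N).2 hK.hasSum.summable).div_const 2).mul_right _
  have h2 : ∑' n, f n = ∑ n ∈ Finset.range N, f n + ∑' n, f (n + N) :=
    (hsumf.sum_add_tsum_nat_add N).symm
  rw [h2]
  congr 1
  · obtain ⟨m, rfl⟩ : ∃ m, N = m + 1 := ⟨N - 1, by omega⟩
    rw [Finset.sum_range_succ', show m + 1 - 1 = m by omega]
    have h0 : f 0 = 0 := by simp [hf, hK.zero]
    rw [h0, add_zero]
    refine Finset.sum_congr rfl fun j hj => ?_
    have hj' := Finset.mem_range.1 hj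
    exact hlt (j + 1) (by omega)
  · simp only [hge]
    rw [tsum_mul_right, tsum_div_const]
    rfl

lemma Wc_eq_V {ν : Measure (ℕ × ℕ)} {K : ℕ → ℝ} {α : ℝ} (hK : IsInterarrival K α)
    (hν : IsBlockLaw ν K) (N : ℕ) (hN : 1 ≤ N) (G : ℕ → ℝ) :
    Wc ν N G = V (fun n => K n / 2) (fun n => gapTail K n / 2) N G := by
  induction N using Nat.strong_induction_on generalizing G with
  | _ N ih =>
    rw [Wc_eq hK hν N hN, V_eq]
    congr 1
    refine Finset.sum_congr rfl fun j hj => ?_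
    have hj' := Finset.mem_range.1 hj
    rw [ih (N - (j + 1)) (by omega) (by omega)]

end Pool.Agent.Helper964.Copolymer
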