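import Mathlib
import Pool.Agent.Helper964.Copolymer

open MeasureTheory ProbabilityTheory Set Filter Topology
open scoped ENNReal

namespace Pool.Agent.Helper964.Copolymer

variable {K : ℕ → ℝ} {α : ℝ}

lemma IsInterarrival.nonneg (hK : IsInterarrival K α) (n : ℕ) : 0 ≤ K n := by
  rcases Nat.eq_zero_or_pos n with h | h
  · rw [h, hK.zero]
  · exact (hK.pos n h).le

lemma IsInterarrival.le (hK : IsInterarrival K α) :
    ∃ C : ℝ, 0 < C ∧ ∀ n : ℕ, 1 ≤ n → K n ≤ C * (n : ℝ) ^ (-(1 + α)) := by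
  obtain ⟨c, hc, hT⟩ := hK.tail
  obtain ⟨M, hM⟩ := hT.bddAbove_range
  refine ⟨max M 1, by positivity, fun n hn => ?_⟩
  have hn' : (0 : ℝ) < n := by exact_mod_cast hn
  have h1 : K n * (n : ℝ) ^ (1 + α) ≤ M := hM ⟨n, rfl⟩
  have h2 : K n = (K n * (n : ℝ) ^ (1 + α)) * (n : ℝ) ^ (-(1 + α)) := by
    rw [mul_assoc, ← Real.rpow_add hn']; simp
  rw [h2]
  exact mul_le_mul_of_nonneg_right (h1.trans (le_max_left _ _)) (Real.rpow_nonneg hn'.le _)

lemma IsInterarrival.ge (hK : IsInterarrival K α) :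
    ∃ c : ℝ, 0 < c ∧ ∀ n : ℕ, 1 ≤ n → c * (n : ℝ) ^ (-(1 + α)) ≤ K n := by
  obtain ⟨c, hc, hT⟩ := hK.tail
  have hT' := hT.inv₀ hc.ne'
  obtain ⟨M, hM⟩ := hT'.bddAbove_range
  refine ⟨(max M 1)⁻¹, by positivity, fun n hn => ?_⟩
  have hn' : (0 : ℝ) < n := by exact_mod_cast hn
  have hpos : 0 < K n * (n : ℝ) ^ (1 + α) := mul_pos (hK.pos n hn) (Real.rpow_pos_of_pos hn' _)
  have h1 : (K n * (n : ℝ) ^ (1 + α))⁻¹ ≤ max M 1 := (hM ⟨n, rfl⟩).trans (le_max_left _ _)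
  have h3 : (max M 1)⁻¹ ≤ K n * (n : ℝ) ^ (1 + α) := by
    rw [inv_le_comm₀ (by positivity) hpos]; exact h1
  have h2 : K n = (K n * (n : ℝ) ^ (1 + α)) * (n : ℝ) ^ (-(1 + α)) := by
    rw [mul_assoc, ← Real.rpow_add hn']; simp
  rw [h2]
  exact mul_le_mul_of_nonneg_right h3 (Real.rpow_nonneg hn'.le _)

lemma rpow_telescope {α : ℝ} (hα : 0 < α) {x : ℝ} (hx : 1 ≤ x) :
    x ^ (-(1 + α)) ≤ 2 ^ (1 + α) / α * (x ^ (-α) - (x + 1) ^ (-α)) := by
  have hx0 : 0 < x := by linarith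
  have hx1 : 0 < x + 1 := by linarith
  -- x^{-α} ≥ (x+1)^{-α} (1 + α/(x+1))
  have h1 : (x + 1) ^ (-α) * (1 + α / (x + 1)) ≤ x ^ (-α) := by
    have hlog : 1 / (x + 1) ≤ Real.log ((x + 1) / x) := by
      have := Real.one_sub_inv_le_log_of_pos (show 0 < (x + 1) / x by positivity)
      have e : 1 - ((x + 1) / x)⁻¹ = 1 / (x + 1) := by field_simp; ring
      rwa [e] at this
    have h2 : 1 + α / (x + 1) ≤ ((x + 1) / x) ^ α := by
      rw [Real.rpow_def_of_pos (by positivity)]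
      calc 1 + α / (x + 1) ≤ Real.exp (α / (x + 1)) := by
            have := Real.add_one_le_exp (α / (x + 1)); linarith
        _ ≤ Real.exp (Real.log ((x + 1) / x) * α) := by
            apply Real.exp_le_exp.2
            calc α / (x + 1) = 1 / (x + 1) * α := by ring
              _ ≤ _ := mul_le_mul_of_nonneg_right hlog hα.le
    calc (x + 1) ^ (-α) * (1 + α / (x + 1)) ≤ (x + 1) ^ (-α) * ((x + 1) / x) ^ α :=
          mul_le_mul_of_nonneg_left h2 (Real.rpow_nonneg hx1.le _)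
      _ = x ^ (-α) := by
          rw [Real.div_rpow hx1.le hx0.le, Real.rpow_neg hx1.le, Real.rpow_neg hx0.le]
          have : (x + 1) ^ α ≠ 0 := (Real.rpow_pos_of_pos hx1 _).ne'
          field_simp
  have h3 : (2 * x) ^ (-(1 + α)) ≤ (x + 1) ^ (-(1 + α)) :=
    Real.rpow_le_rpow_of_nonpos hx1 (by linarith) (by linarith)
  have h4 : (x + 1) ^ (-(1 + α)) = (x + 1) ^ (-α) / (x + 1) := by
    rw [show -(1 + α) = -α - 1 by ring, Real.rpow_sub_one hx1.ne']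
  have h5 : (2 * x) ^ (-(1 + α)) = (2 ^ (1 + α))⁻¹ * x ^ (-(1 + α)) := by
    rw [Real.mul_rpow (by norm_num) hx0.le, Real.rpow_neg (by norm_num : (0 : ℝ) ≤ 2)]
  have h2pos : (0 : ℝ) < 2 ^ (1 + α) := by positivity
  have h6 : x ^ (-(1 + α)) ≤ 2 ^ (1 + α) * (x + 1) ^ (-(1 + α)) := by
    rw [h5] at h3
    calc x ^ (-(1 + α)) = 2 ^ (1 + α) * ((2 ^ (1 + α))⁻¹ * x ^ (-(1 + α))) := by
          field_simp
      _ ≤ _ := mul_le_mul_of_nonneg_left h3 h2pos.le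
  have h7 : α * (x + 1) ^ (-(1 + α)) ≤ x ^ (-α) - (x + 1) ^ (-α) := by
    rw [h4]
    have : (x + 1) ^ (-α) * (1 + α / (x + 1)) = (x + 1) ^ (-α) + α * ((x + 1) ^ (-α) / (x + 1)) := by
      ring
    linarith
  calc x ^ (-(1 + α)) ≤ 2 ^ (1 + α) * (x + 1) ^ (-(1 + α)) := h6
    _ = 2 ^ (1 + α) / α * (α * (x + 1) ^ (-(1 + α))) := by field_simp
    _ ≤ _ := mul_le_mul_of_nonneg_left h7 (by positivity)

lemma IsInterarrival.tail_le (hK : IsInterarrival K α) :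
    ∃ C : ℝ, 0 < C ∧ ∀ n : ℕ, 1 ≤ n → gapTail K n ≤ C * (n : ℝ) ^ (-α) := by
  obtain ⟨C, hC, hle⟩ := hK.le
  have hα := hK.alpha_pos
  refine ⟨C * (2 ^ (1 + α) / α), by positivity, fun N hN => ?_⟩
  unfold gapTail
  refine Real.tsum_le_of_sum_range_le (fun n => hK.nonneg _) fun m => ?_
  have h1 : ∀ n ∈ Finset.range m, K (n + N) ≤ C * (2 ^ (1 + α) / α) *
      (((n + N : ℕ) : ℝ) ^ (-α) - ((n + 1 + N : ℕ) : ℝ) ^ (-α)) := by
    intro n _
    have hx : (1 : ℝ) ≤ ((n + N : ℕ) : ℝ) := by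
      have : 1 ≤ n + N := by omega
      exact_mod_cast this
    refine (hle (n + N) (by omega)).trans ?_
    have := rpow_telescope hα hx
    have e : ((n + N : ℕ) : ℝ) + 1 = ((n + 1 + N : ℕ) : ℝ) := by push_cast; ring
    rw [e] at this
    rw [mul_assoc]
    exact mul_le_mul_of_nonneg_left this hC.le
  refine (Finset.sum_le_sum h1).trans ?_
  rw [← Finset.mul_sum, Finset.sum_range_sub' (fun n : ℕ => ((n + N : ℕ) : ℝ) ^ (-α))]
  have h0 : (0 : ℝ) ≤ ((m + N : ℕ) : ℝ) ^ (-α) := Real.rpow_nonneg (by positivity) _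
  have : ((0 + N : ℕ) : ℝ) ^ (-α) - ((m + N : ℕ) : ℝ) ^ (-α) ≤ (N : ℝ) ^ (-α) := by
    rw [zero_add]; linarith
  exact mul_le_mul_of_nonneg_left this (by positivity)

lemma IsInterarrival.summable_tail (hK : IsInterarrival K α) (N : ℕ) :
    Summable fun n => K (n + N) := (summable_nat_add_iff N).2 hK.hasSum.summable

lemma IsInterarrival.tail_nonneg (hK : IsInterarrival K α) (N : ℕ) : 0 ≤ gapTail K N :=
  tsum_nonneg fun _ => hK.nonneg _

lemma IsInterarrival.tail_ge (hK : IsInterarrival K α) :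
    ∃ c : ℝ, 0 < c ∧ ∀ n : ℕ, 1 ≤ n → c * (n : ℝ) ^ (-α) ≤ gapTail K n := by
  obtain ⟨c, hc, hge⟩ := hK.ge
  have hα := hK.alpha_pos
  refine ⟨c * 2 ^ (-(1 + α)), by positivity, fun N hN => ?_⟩
  have hN' : (0 : ℝ) < N := by exact_mod_cast hN
  have h1 : ∑ n ∈ Finset.range N, K (n + N) ≤ gapTail K N :=
    (hK.summable_tail N).sum_le_tsum _ fun n _ => hK.nonneg _
  refine le_trans ?_ h1
  have h2 : ∀ n ∈ Finset.range N, c * ((2 : ℝ) * N) ^ (-(1 + α)) ≤ K (n + N) := by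
    intro n hn
    have hn' := Finset.mem_range.1 hn
    refine le_trans ?_ (hge (n + N) (by omega))
    refine mul_le_mul_of_nonneg_left ?_ hc.le
    refine Real.rpow_le_rpow_of_nonpos ?_ ?_ (by linarith)
    · have : 0 < n + N := by omega
      exact_mod_cast this
    · have : n + N ≤ 2 * N := by omega
      exact_mod_cast this
  refine le_trans (le_of_eq ?_) (Finset.sum_le_sum h2)
  rw [Finset.sum_const, Finset.card_range, nsmul_eq_mul, Real.mul_rpow (by norm_num) hN'.le,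
    show -(1 + α) = -α - 1 by ring, Real.rpow_sub_one hN'.ne']
  field_simp

lemma IsInterarrival.tail_pos (hK : IsInterarrival K α) (N : ℕ) (hN : 1 ≤ N) : 0 < gapTail K N := by
  obtain ⟨c, hc, h⟩ := hK.tail_ge
  have hN' : (0 : ℝ) < N := by exact_mod_cast hN
  exact lt_of_lt_of_le (mul_pos hc (Real.rpow_pos_of_pos hN' _)) (h N hN)

/-- hazard rate bound -/
lemma IsInterarrival.hazard (hK : IsInterarrival K α) :
    ∃ c : ℝ, 0 < c ∧ ∀ n : ℕ, 1 ≤ n → c / n * gapTail K n ≤ K n := by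
  obtain ⟨c, hc, hge⟩ := hK.ge
  obtain ⟨C, hC, hle⟩ := hK.tail_le
  refine ⟨c / C, by positivity, fun n hn => ?_⟩
  have hn' : (0 : ℝ) < n := by exact_mod_cast hn
  calc c / C / n * gapTail K n ≤ c / C / n * (C * (n : ℝ) ^ (-α)) :=
        mul_le_mul_of_nonneg_left (hle n hn) (by positivity)
    _ = c * (n : ℝ) ^ (-(1 + α)) := by
        rw [show -(1 + α) = -α - 1 by ring, Real.rpow_sub_one hn'.ne']
        field_simp
    _ ≤ K n := hge n hn

/-! ### A renewal inequality -/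

lemma sum_rpow_crude {θ : ℝ} (hθ : 0 < θ) (N : ℕ) :
    ∑ u ∈ Finset.range N, ((u + 1 : ℕ) : ℝ) ^ (-θ) ≤
      ((N : ℝ) ^ (1 / 2 : ℝ) + 1) + N * (N : ℝ) ^ (-(θ / 2)) := by
  classical
  rcases Nat.eq_zero_or_pos N with h0 | hN
  · subst h0; simp
  have hN' : (0 : ℝ) < N := by exact_mod_cast hN
  have hsplit : ∀ u ∈ Finset.range N, ((u + 1 : ℕ) : ℝ) ^ (-θ) ≤
      (if ((u : ℝ)) < (N : ℝ) ^ (1 / 2 : ℝ) then 1 else 0) + (N : ℝ) ^ (-(θ / 2)) := by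
    intro u _
    have hpos : (0 : ℝ) ≤ (N : ℝ) ^ (-(θ / 2)) := Real.rpow_nonneg hN'.le _
    split_ifs with h
    · have : ((u + 1 : ℕ) : ℝ) ^ (-θ) ≤ 1 :=
        Real.rpow_le_one_of_one_le_of_nonpos (by push_cast; linarith [Nat.cast_nonneg (α := ℝ) u])
          (by linarith)
      linarith
    · push Not at h
      rw [zero_add]
      have e : (N : ℝ) ^ (-(θ / 2)) = ((N : ℝ) ^ (1 / 2 : ℝ)) ^ (-θ) := by
        rw [← Real.rpow_mul hN'.le]; congr 1; ring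
      rw [e]
      exact Real.rpow_le_rpow_of_nonpos (Real.rpow_pos_of_pos hN' _)
        (by push_cast; linarith) (by linarith)
  refine (Finset.sum_le_sum hsplit).trans ?_
  rw [Finset.sum_add_distrib, Finset.sum_const, Finset.card_range, nsmul_eq_mul]
  refine add_le_add ?_ le_rfl
  rw [Finset.sum_ite, Finset.sum_const_zero, add_zero, Finset.sum_const, nsmul_eq_mul, mul_one]
  have hsub : (Finset.range N).filter (fun u : ℕ => (u : ℝ) < (N : ℝ) ^ (1 / 2 : ℝ)) ⊆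
      Finset.range (⌊(N : ℝ) ^ (1 / 2 : ℝ)⌋₊ + 1) := by
    intro u hu
    simp only [Finset.mem_filter, Finset.mem_range] at hu ⊢
    have := Nat.le_floor hu.2.le
    omega
  have hcard := Finset.card_le_card hsub
  rw [Finset.card_range] at hcard
  calc ((((Finset.range N).filter (fun u : ℕ => (u : ℝ) < (N : ℝ) ^ (1 / 2 : ℝ))).card : ℕ) : ℝ) ≤
        ((⌊(N : ℝ) ^ (1 / 2 : ℝ)⌋₊ + 1 : ℕ) : ℝ) := by exact_mod_cast hcard
    _ ≤ (N : ℝ) ^ (1 / 2 : ℝ) + 1 := by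
        push_cast
        have := Nat.floor_le (Real.rpow_nonneg hN'.le (1 / 2 : ℝ))
        linarith

lemma tendsto_rpow_neg_nat {y : ℝ} (hy : 0 < y) :
    Tendsto (fun N : ℕ => (N : ℝ) ^ (-y)) atTop (𝓝 0) :=
  (tendsto_rpow_neg_atTop hy).comp tendsto_natCast_atTop_atTop

lemma renewal_kernel_bound {θ γ s C : ℝ} (hθ : 0 < θ) (hγ : 1 / 2 < γ) (hγθ : 1 < γ + θ / 2)
    (hs0 : 0 ≤ s) (hs : s < 1) (hC : 0 ≤ C) {q : ℕ → ℝ} (hq0 : ∀ n, 0 ≤ q n)
    (hq : ∀ n : ℕ, 1 ≤ n → q n ≤ C * (n : ℝ) ^ (-(θ + γ)))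
    (hqs : ∀ M, ∑ j ∈ Finset.range M, q (j + 1) ≤ s) :
    ∃ s' : ℝ, 0 ≤ s' ∧ s' < 1 ∧ ∀ᶠ N : ℕ in atTop,
      ∑ j ∈ Finset.range (N - 1), q (j + 1) * ((N - (j + 1) : ℕ) : ℝ) ^ (-θ) ≤
        s' * (N : ℝ) ^ (-θ) := by
  classical
  -- choose δ
  obtain ⟨δ, hδ0, hδ1, hδs⟩ : ∃ δ : ℝ, 0 < δ ∧ δ < 1 ∧ s * (1 - δ) ^ (-θ) < (1 + s) / 2 := by
    have hcont : ContinuousAt (fun δ : ℝ => s * (1 - δ) ^ (-θ)) 0 := by
      refine continuousAt_const.mul (ContinuousAt.rpow_const (by fun_prop) (Or.inl (by norm_num)))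
    have hlt : (fun δ : ℝ => s * (1 - δ) ^ (-θ)) 0 < (1 + s) / 2 := by
      simp only [sub_zero, Real.one_rpow, mul_one]; linarith
    have hev := hcont.eventually_lt continuousAt_const hlt
    have hev2 : ∀ᶠ δ in 𝓝[>] (0 : ℝ), s * (1 - δ) ^ (-θ) < (1 + s) / 2 :=
      nhdsWithin_le_nhds hev
    have hev3 : ∀ᶠ δ in 𝓝[>] (0 : ℝ), δ < 1 := nhdsWithin_le_nhds (gt_mem_nhds one_pos)
    obtain ⟨δ, h1, h2, h3⟩ := (hev2.and (hev3.and self_mem_nhdsWithin)).exists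
    exact ⟨δ, h3, h2, h1⟩
  set E : ℕ → ℝ := fun N => C * δ ^ (-(θ + γ)) *
    ((N : ℝ) ^ (-(γ - 1 / 2)) + (N : ℝ) ^ (-γ) + (N : ℝ) ^ (-(γ + θ / 2 - 1))) with hE
  have hE0 : Tendsto E atTop (𝓝 0) := by
    have h := ((tendsto_rpow_neg_nat (show 0 < γ - 1 / 2 by linarith)).add
      (tendsto_rpow_neg_nat (show 0 < γ by linarith))).add
      (tendsto_rpow_neg_nat (show 0 < γ + θ / 2 - 1 by linarith))
    have := h.const_mul (C * δ ^ (-(θ + γ)))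
    simpa [hE] using this
  refine ⟨(3 + s) / 4, by linarith, by linarith, ?_⟩
  have hEsmall := hE0.eventually_lt_const (show (0 : ℝ) < (1 - s) / 4 by linarith)
  filter_upwards [hEsmall, eventually_ge_atTop 1] with N hEN hN
  have hN' : (0 : ℝ) < N := by exact_mod_cast hN
  have hNθ : (0 : ℝ) ≤ (N : ℝ) ^ (-θ) := Real.rpow_nonneg hN'.le _
  -- termwise bound
  have hterm : ∀ j ∈ Finset.range (N - 1), q (j + 1) * ((N - (j + 1) : ℕ) : ℝ) ^ (-θ) ≤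
      q (j + 1) * ((1 - δ) ^ (-θ) * (N : ℝ) ^ (-θ)) +
      C * (δ * N) ^ (-(θ + γ)) * ((N - (j + 1) : ℕ) : ℝ) ^ (-θ) := by
    intro j hj
    have hj' : j + 1 < N := by have := Finset.mem_range.1 hj; omega
    have hu : (0 : ℝ) < ((N - (j + 1) : ℕ) : ℝ) := by
      have : 0 < N - (j + 1) := by omega
      exact_mod_cast this
    have hcast : ((N - (j + 1) : ℕ) : ℝ) = N - ((j : ℝ) + 1) := by
      rw [Nat.cast_sub hj'.le]; push_cast; ring
    have hpos1 : 0 ≤ q (j + 1) * ((1 - δ) ^ (-θ) * (N : ℝ) ^ (-θ)) :=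
      mul_nonneg (hq0 _) (mul_nonneg (Real.rpow_nonneg (by linarith) _) hNθ)
    have hpos2 : 0 ≤ C * (δ * N) ^ (-(θ + γ)) * ((N - (j + 1) : ℕ) : ℝ) ^ (-θ) :=
      mul_nonneg (mul_nonneg hC (Real.rpow_nonneg (by positivity) _)) (Real.rpow_nonneg hu.le _)
    rcases le_or_gt ((j : ℝ) + 1) (δ * N) with h | h
    · have h1 : (1 - δ) * N ≤ ((N - (j + 1) : ℕ) : ℝ) := by rw [hcast]; linarith
      have h2 : ((N - (j + 1) : ℕ) : ℝ) ^ (-θ) ≤ (1 - δ) ^ (-θ) * (N : ℝ) ^ (-θ) := by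
        rw [← Real.mul_rpow (by linarith) hN'.le]
        exact Real.rpow_le_rpow_of_nonpos (mul_pos (by linarith) hN') h1 (by linarith)
      have := mul_le_mul_of_nonneg_left h2 (hq0 (j + 1))
      linarith
    · have h1 : q (j + 1) ≤ C * (δ * N) ^ (-(θ + γ)) := by
        refine (hq (j + 1) (by omega)).trans (mul_le_mul_of_nonneg_left ?_ hC)
        refine Real.rpow_le_rpow_of_nonpos (by positivity) ?_ (by linarith)
        push_cast; exact h.le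
      have := mul_le_mul_of_nonneg_right h1 (Real.rpow_nonneg hu.le (-θ))
      linarith
  refine (Finset.sum_le_sum hterm).trans ?_
  rw [Finset.sum_add_distrib, ← Finset.sum_mul, ← Finset.mul_sum]
  have hA : (∑ j ∈ Finset.range (N - 1), q (j + 1)) * ((1 - δ) ^ (-θ) * (N : ℝ) ^ (-θ)) ≤
      (1 + s) / 2 * (N : ℝ) ^ (-θ) := by
    calc (∑ j ∈ Finset.range (N - 1), q (j + 1)) * ((1 - δ) ^ (-θ) * (N : ℝ) ^ (-θ)) ≤
          s * ((1 - δ) ^ (-θ) * (N : ℝ) ^ (-θ)) :=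
          mul_le_mul_of_nonneg_right (hqs _)
            (mul_nonneg (Real.rpow_nonneg (by linarith) _) hNθ)
      _ = s * (1 - δ) ^ (-θ) * (N : ℝ) ^ (-θ) := by ring
      _ ≤ _ := mul_le_mul_of_nonneg_right hδs.le hNθ
  have hB : C * (δ * N) ^ (-(θ + γ)) *
      ∑ j ∈ Finset.range (N - 1), ((N - (j + 1) : ℕ) : ℝ) ^ (-θ) ≤ E N * (N : ℝ) ^ (-θ) := by
    have h1 : ∑ j ∈ Finset.range (N - 1), ((N - (j + 1) : ℕ) : ℝ) ^ (-θ) ≤
        ((N : ℝ) ^ (1 / 2 : ℝ) + 1) + N * (N : ℝ) ^ (-(θ / 2)) := by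
      have e : ∑ j ∈ Finset.range (N - 1), ((N - (j + 1) : ℕ) : ℝ) ^ (-θ) =
          ∑ u ∈ Finset.range (N - 1), ((u + 1 : ℕ) : ℝ) ^ (-θ) := by
        rw [← Finset.sum_range_reflect]
        refine Finset.sum_congr rfl fun j hj => ?_
        have hj' := Finset.mem_range.1 hj
        have : N - 1 - 1 - j + 1 = N - (j + 1) := by omega
        rw [this]
        congr 2
        omega
      rw [e]
      refine le_trans ?_ (sum_rpow_crude hθ N)
      refine Finset.sum_le_sum_of_subset_of_nonneg ?_ fun u _ _ => Real.rpow_nonneg (by positivity) _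
      intro u hu
      have := Finset.mem_range.1 hu
      exact Finset.mem_range.2 (by omega)
    have h2 : C * (δ * N) ^ (-(θ + γ)) * (((N : ℝ) ^ (1 / 2 : ℝ) + 1) +
        N * (N : ℝ) ^ (-(θ / 2))) = E N * (N : ℝ) ^ (-θ) := by
      have e0 : (δ * (N : ℝ)) ^ (-(θ + γ)) = δ ^ (-(θ + γ)) * ((N : ℝ) ^ (-θ) * (N : ℝ) ^ (-γ)) := by
        rw [Real.mul_rpow hδ0.le hN'.le, ← Real.rpow_add hN']; congr 2; ring
      have e1 : (N : ℝ) ^ (-γ) * (N : ℝ) ^ (1 / 2 : ℝ) = (N : ℝ) ^ (-(γ - 1 / 2)) := by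
        rw [← Real.rpow_add hN']; congr 1; ring
      have e2 : (N : ℝ) ^ (-γ) * ((N : ℝ) * (N : ℝ) ^ (-(θ / 2))) =
          (N : ℝ) ^ (-(γ + θ / 2 - 1)) := by
        nth_rewrite 2 [← Real.rpow_one (N : ℝ)]
        rw [← Real.rpow_add hN', ← Real.rpow_add hN']; congr 1; ring
      simp only [hE]
      rw [e0, ← e1, ← e2]
      ring
    rw [← h2]
    refine mul_le_mul_of_nonneg_left h1 (mul_nonneg hC (Real.rpow_nonneg (by positivity) _))
  have hEN' : E N * (N : ℝ) ^ (-θ) ≤ (1 - s) / 4 * (N : ℝ) ^ (-θ) :=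
    mul_le_mul_of_nonneg_right hEN.le hNθ
  calc _ ≤ (1 + s) / 2 * (N : ℝ) ^ (-θ) + (1 - s) / 4 * (N : ℝ) ^ (-θ) :=
        add_le_add hA (hB.trans hEN')
    _ = (3 + s) / 4 * (N : ℝ) ^ (-θ) := by ring

lemma renewal_ineq {θ γ s C D : ℝ} (hθ : 0 < θ) (hγ : 1 / 2 < γ) (hγθ : 1 < γ + θ / 2)
    (hs0 : 0 ≤ s) (hs : s < 1) (hC : 0 ≤ C) {q : ℕ → ℝ} (hq0 : ∀ n, 0 ≤ q n)
    (hq : ∀ n : ℕ, 1 ≤ n → q n ≤ C * (n : ℝ) ^ (-(θ + γ)))
    (hqs : ∀ M, ∑ j ∈ Finset.range M, q (j + 1) ≤ s) {a : ℕ → ℝ}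
    (ha : ∀ N : ℕ, 1 ≤ N → a N ≤ ∑ j ∈ Finset.range (N - 1), q (j + 1) * a (N - (j + 1)) +
      D * (N : ℝ) ^ (-θ)) :
    ∃ B : ℝ, 0 ≤ B ∧ ∀ N : ℕ, 1 ≤ N → a N ≤ B * (N : ℝ) ^ (-θ) := by
  obtain ⟨s', hs'0, hs'1, hev⟩ := renewal_kernel_bound hθ hγ hγθ hs0 hs hC hq0 hq hqs
  obtain ⟨N₀, hN₀⟩ := eventually_atTop.1 hev
  -- initial bound
  obtain ⟨B₀, hB₀⟩ : ∃ B₀ : ℝ, ∀ N ∈ Finset.range N₀, a N * (N : ℝ) ^ θ ≤ B₀ := by
    obtain ⟨M, hM⟩ := ((Finset.range N₀).image fun N : ℕ => a N * (N : ℝ) ^ θ).bddAbove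
    exact ⟨M, fun N hN => hM (Finset.mem_image_of_mem _ hN)⟩
  set B : ℝ := max (max B₀ 0) (D / (1 - s')) with hB
  have hB0 : 0 ≤ B := le_max_of_le_left (le_max_right _ _)
  refine ⟨B, hB0, ?_⟩
  intro N
  induction N using Nat.strong_induction_on with
  | _ N ih =>
    intro hN
    have hN' : (0 : ℝ) < N := by exact_mod_cast hN
    rcases lt_or_ge N N₀ with h | h
    · have h1 := hB₀ N (Finset.mem_range.2 h)
      have h2 : a N = a N * (N : ℝ) ^ θ * (N : ℝ) ^ (-θ) := by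
        rw [mul_assoc, ← Real.rpow_add hN']; simp
      rw [h2]
      refine mul_le_mul_of_nonneg_right (h1.trans ?_) (Real.rpow_nonneg hN'.le _)
      exact (le_max_left _ _).trans (le_max_left _ _)
    · refine (ha N hN).trans ?_
      have h1 : ∑ j ∈ Finset.range (N - 1), q (j + 1) * a (N - (j + 1)) ≤
          ∑ j ∈ Finset.range (N - 1), B * (q (j + 1) * ((N - (j + 1) : ℕ) : ℝ) ^ (-θ)) := by
        refine Finset.sum_le_sum fun j hj => ?_
        have hj' := Finset.mem_range.1 hj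
        have := ih (N - (j + 1)) (by omega) (by omega)
        calc q (j + 1) * a (N - (j + 1)) ≤ q (j + 1) * (B * ((N - (j + 1) : ℕ) : ℝ) ^ (-θ)) :=
              mul_le_mul_of_nonneg_left this (hq0 _)
          _ = _ := by ring
      rw [← Finset.mul_sum] at h1
      have h2 := mul_le_mul_of_nonneg_left (hN₀ N h) hB0
      have h3 : D ≤ (1 - s') * B := by
        have : D / (1 - s') ≤ B := le_max_right _ _
        rw [div_le_iff₀ (by linarith)] at this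
        linarith
      have h4 : D * (N : ℝ) ^ (-θ) ≤ (1 - s') * B * (N : ℝ) ^ (-θ) :=
        mul_le_mul_of_nonneg_right h3 (Real.rpow_nonneg hN'.le _)
      calc _ ≤ B * (s' * (N : ℝ) ^ (-θ)) + (1 - s') * B * (N : ℝ) ^ (-θ) :=
            add_le_add (h1.trans h2) h4
        _ = B * (N : ℝ) ^ (-θ) := by ring

end Pool.Agent.Helper964.Copolymer
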