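import Mathlib
import Pool.Agent.Helper964.RenewalBounds

open MeasureTheory ProbabilityTheory Set Filter Topology
open scoped ENNReal

namespace Pool.Agent.Helper964.Copolymer

variable {K : ℕ → ℝ} {α : ℝ}

lemma V_nonneg {k p : ℕ → ℝ} (hk : ∀ n, 0 ≤ k n) (hp : ∀ n, 0 ≤ p n) (N : ℕ) (G : ℕ → ℝ)
    (hG : ∀ n, 0 ≤ G n) : 0 ≤ V k p N G := by
  induction N using Nat.strong_induction_on generalizing G with
  | _ N ih =>
    rw [V_eq]
    have hprod : ∀ m, 0 ≤ ∏ n ∈ Finset.range m, G n := fun m => Finset.prod_nonneg fun n _ => hG n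
    refine add_nonneg (Finset.sum_nonneg fun j hj => ?_) (mul_nonneg (hp _) (by
      have := hprod N; linarith))
    have hj' := Finset.mem_range.1 hj
    exact mul_nonneg (mul_nonneg (hk _) (by have := hprod (j + 1); linarith))
      (ih _ (by omega) _ fun n => hG _)

lemma rpow_sum_le {ι : Type*} (s : Finset ι) (f : ι → ℝ) (hf : ∀ i ∈ s, 0 ≤ f i) {γ : ℝ}
    (h0 : 0 < γ) (h1 : γ ≤ 1) : (∑ i ∈ s, f i) ^ γ ≤ ∑ i ∈ s, f i ^ γ := by
  classical
  induction s using Finset.induction_on with
  | empty => simp [Real.zero_rpow h0.ne']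
  | insert i s hi ih =>
    rw [Finset.sum_insert hi, Finset.sum_insert hi]
    have hf' : ∀ j ∈ s, 0 ≤ f j := fun j hj => hf j (Finset.mem_insert_of_mem hj)
    refine (Real.rpow_add_le_add_rpow (hf i (Finset.mem_insert_self _ _))
      (Finset.sum_nonneg hf') h0.le h1).trans ?_
    exact add_le_add le_rfl (ih hf')

lemma V_rpow_le {k p : ℕ → ℝ} (hk : ∀ n, 0 ≤ k n) (hp : ∀ n, 0 ≤ p n) {γ : ℝ}
    (h0 : 0 < γ) (h1 : γ ≤ 1) (N : ℕ) (G : ℕ → ℝ) (hG : ∀ n, 0 ≤ G n) :
    (V k p N G) ^ γ ≤ V (fun n => k n ^ γ) (fun n => p n ^ γ) N (fun n => G n ^ γ) := by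
  induction N using Nat.strong_induction_on generalizing G with
  | _ N ih =>
    rw [V_eq, V_eq]
    have hprod : ∀ m, 0 ≤ ∏ n ∈ Finset.range m, G n := fun m => Finset.prod_nonneg fun n _ => hG n
    have hone : ∀ m, (1 + ∏ n ∈ Finset.range m, G n) ^ γ ≤
        1 + ∏ n ∈ Finset.range m, G n ^ γ := by
      intro m
      refine (Real.rpow_add_le_add_rpow zero_le_one (hprod m) h0.le h1).trans ?_
      rw [Real.one_rpow, Real.finsetProd_rpow _ _ fun n _ => hG n]
    have hnn : ∀ j ∈ Finset.range (N - 1), 0 ≤ k (j + 1) * (1 + ∏ n ∈ Finset.range (j + 1), G n) *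
        V k p (N - (j + 1)) (fun n => G (n + (j + 1))) := by
      intro j _
      exact mul_nonneg (mul_nonneg (hk _) (by have := hprod (j + 1); linarith))
        (V_nonneg hk hp _ _ fun n => hG _)
    refine (Real.rpow_add_le_add_rpow (Finset.sum_nonneg hnn)
      (mul_nonneg (hp _) (by have := hprod N; linarith)) h0.le h1).trans ?_
    refine add_le_add ((rpow_sum_le _ _ hnn h0 h1).trans (Finset.sum_le_sum fun j hj => ?_)) ?_
    · have hj' := Finset.mem_range.1 hj
      have hp1 : 0 ≤ 1 + ∏ n ∈ Finset.range (j + 1), G n := by have := hprod (j + 1); linarith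
      rw [Real.mul_rpow (mul_nonneg (hk _) hp1) (V_nonneg hk hp _ _ fun n => hG _),
        Real.mul_rpow (hk _) hp1]
      refine mul_le_mul (mul_le_mul_of_nonneg_left (hone _) (Real.rpow_nonneg (hk _) _))
        (ih _ (by omega) _ fun n => hG _) (Real.rpow_nonneg (V_nonneg hk hp _ _ fun n => hG _) _)
        (mul_nonneg (Real.rpow_nonneg (hk _) _) ?_)
      have : 0 ≤ ∏ n ∈ Finset.range (j + 1), G n ^ γ :=
        Finset.prod_nonneg fun n _ => Real.rpow_nonneg (hG n) _
      linarith
    · rw [Real.mul_rpow (hp _) (by have := hprod N; linarith)]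
      exact mul_le_mul_of_nonneg_left (hone N) (Real.rpow_nonneg (hp _) _)

/-- Expectation of the functional for independent site weights with common mean `ρ`. -/
lemma V_expect {Ω' : Type*} [MeasurableSpace Ω'] {Q : Measure Ω'} (k p : ℕ → ℝ)
    (G : ℕ → Ω' → ℝ) (ρ : ℝ)
    (hG : ∀ A : Finset ℕ, Integrable (fun v => ∏ n ∈ A, G n v) Q ∧
      ∫ v, ∏ n ∈ A, G n v ∂Q = ρ ^ A.card) (N : ℕ) :
    ∀ (m : ℕ) (A : Finset ℕ), A ⊆ Finset.range m →
      Integrable (fun v => (∏ n ∈ A, G n v) * V k p N (fun n => G (n + m) v)) Q ∧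
      ∫ v, (∏ n ∈ A, G n v) * V k p N (fun n => G (n + m) v) ∂Q =
        ρ ^ A.card * V k p N (fun _ => ρ) := by
  classical
  induction N using Nat.strong_induction_on with
  | _ N ih =>
    intro m A hA
    -- the products over consecutive sites
    have hprod : ∀ (l : ℕ) (v : Ω'), (∏ n ∈ A, G n v) * ∏ n ∈ Finset.range l, G (n + m) v =
        ∏ n ∈ A ∪ Finset.Ico m (m + l), G n v := by
      intro l v
      rw [Finset.prod_union]
      · congr 1
        rw [Finset.prod_Ico_eq_prod_range, show m + l - m = l by omega]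
        exact Finset.prod_congr rfl fun n _ => by rw [add_comm]
      · rw [Finset.disjoint_left]
        intro x hx hx'
        have h1 := Finset.mem_range.1 (hA hx)
        have h2 := Finset.mem_Ico.1 hx'
        omega
    have hcard : ∀ l, (A ∪ Finset.Ico m (m + l)).card = A.card + l := by
      intro l
      rw [Finset.card_union_of_disjoint]
      · simp
      · rw [Finset.disjoint_left]
        intro x hx hx'
        have h1 := Finset.mem_range.1 (hA hx)
        have h2 := Finset.mem_Ico.1 hx'
        omega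
    have hexp : ∀ v, (∏ n ∈ A, G n v) * V k p N (fun n => G (n + m) v) =
        (∑ j ∈ Finset.range (N - 1), (k (j + 1) *
          ((∏ n ∈ A, G n v) * V k p (N - (j + 1)) (fun n => G (n + (m + (j + 1))) v)) +
          k (j + 1) * ((∏ n ∈ A ∪ Finset.Ico m (m + (j + 1)), G n v) *
            V k p (N - (j + 1)) (fun n => G (n + (m + (j + 1))) v)))) +
        (p N * (∏ n ∈ A, G n v) + p N * ∏ n ∈ A ∪ Finset.Ico m (m + N), G n v) := by
      intro v
      rw [V_eq, mul_add, Finset.mul_sum]
      congr 1
      · refine Finset.sum_congr rfl fun j _ => ?_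
        rw [← hprod]
        have e : (fun n => G (n + (j + 1) + m) v) = (fun n => G (n + (m + (j + 1))) v) := by
          funext n; congr 1; ring
        rw [e]; ring
      · rw [← hprod]; ring
    have hA' : ∀ l, A ∪ Finset.Ico m (m + l) ⊆ Finset.range (m + l) := by
      intro l x hx
      rcases Finset.mem_union.1 hx with h | h
      · have := Finset.mem_range.1 (hA h)
        exact Finset.mem_range.2 (by omega)
      · have := Finset.mem_Ico.1 h
        exact Finset.mem_range.2 this.2
    have hA'' : ∀ l, A ⊆ Finset.range (m + l) := fun l x hx => by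
      have := Finset.mem_range.1 (hA hx)
      exact Finset.mem_range.2 (by omega)
    have hI1 : ∀ j ∈ Finset.range (N - 1), Integrable (fun v => k (j + 1) *
          ((∏ n ∈ A, G n v) * V k p (N - (j + 1)) (fun n => G (n + (m + (j + 1))) v)) +
          k (j + 1) * ((∏ n ∈ A ∪ Finset.Ico m (m + (j + 1)), G n v) *
            V k p (N - (j + 1)) (fun n => G (n + (m + (j + 1))) v))) Q := by
      intro j hj
      have hj' := Finset.mem_range.1 hj
      exact ((ih _ (by omega) _ _ (hA'' (j + 1))).1.const_mul _).add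
        ((ih _ (by omega) _ _ (hA' (j + 1))).1.const_mul _)
    have hI2 : Integrable (fun v => p N * (∏ n ∈ A, G n v) +
        p N * ∏ n ∈ A ∪ Finset.Ico m (m + N), G n v) Q :=
      ((hG A).1.const_mul _).add ((hG _).1.const_mul _)
    constructor
    · simp only [hexp]
      exact (integrable_finsetSum _ hI1).add hI2
    · simp only [hexp]
      rw [integral_add (integrable_finsetSum _ hI1) hI2, integral_finsetSum _ hI1, V_eq, mul_add,
        Finset.mul_sum]
      congr 1
      · refine Finset.sum_congr rfl fun j hj => ?_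
        have hj' := Finset.mem_range.1 hj
        rw [integral_add ((ih _ (by omega) _ _ (hA'' (j + 1))).1.const_mul _)
          ((ih _ (by omega) _ _ (hA' (j + 1))).1.const_mul _), integral_const_mul,
          integral_const_mul, (ih _ (by omega) _ _ (hA'' (j + 1))).2,
          (ih _ (by omega) _ _ (hA' (j + 1))).2, hcard]
        rw [Finset.prod_const, Finset.card_range, pow_add]
        ring
      · rw [integral_add ((hG A).1.const_mul _) ((hG _).1.const_mul _), integral_const_mul,
          integral_const_mul, (hG A).2, (hG _).2, hcard, Finset.prod_const, Finset.card_range,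
          pow_add]
        ring

/-- Lower bound: forcing a renewal at `m` and one negative excursion covering `(m, m + l]`. -/
lemma V_lower (hK : IsInterarrival K α) {c : ℝ} (hc : 0 < c)
    (hhaz : ∀ n : ℕ, 1 ≤ n → c / n * gapTail K n ≤ K n) (l : ℕ) (hl : 1 ≤ l) (m : ℕ) :
    1 ≤ m → ∀ (G : ℕ → ℝ), (∀ n, 0 ≤ G n) →
    c / m * (gapTail K l / 2) * (∏ n ∈ Finset.range l, G (m + n)) *
      V (fun n => K n / 2) (fun n => gapTail K n / 2) m G ≤
      V (fun n => K n / 2) (fun n => gapTail K n / 2) (m + l) G := by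
  have hk : ∀ n, 0 ≤ K n / 2 := fun n => by have := hK.nonneg n; positivity
  have hp : ∀ n, 0 ≤ gapTail K n / 2 := fun n => by have := hK.tail_nonneg n; positivity
  induction m using Nat.strong_induction_on with
  | _ m ih =>
    intro hm G hG
    set V' := V (fun n => K n / 2) (fun n => gapTail K n / 2) with hV'
    have hm' : (0 : ℝ) < m := by exact_mod_cast hm
    have hprod : ∀ a, 0 ≤ ∏ n ∈ Finset.range a, G n := fun m => Finset.prod_nonneg fun n _ => hG n
    set R : ℝ := gapTail K l / 2 * ∏ n ∈ Finset.range l, G (m + n) with hR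
    have hR0 : 0 ≤ R := mul_nonneg (hp _) (Finset.prod_nonneg fun n _ => hG _)
    -- lower bound of the right-hand side by the first `m` terms
    have hrhs : (∑ j ∈ Finset.range (m - 1), K (j + 1) / 2 * (1 + ∏ n ∈ Finset.range (j + 1), G n) *
        V' (m + l - (j + 1)) (fun n => G (n + (j + 1)))) +
        K m / 2 * (1 + ∏ n ∈ Finset.range m, G n) * V' l (fun n => G (n + m)) ≤ V' (m + l) G := by
      rw [hV', V_eq _ _ (m + l), ← hV']
      have hnn : ∀ j, 0 ≤ K (j + 1) / 2 * (1 + ∏ n ∈ Finset.range (j + 1), G n) *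
          V' (m + l - (j + 1)) (fun n => G (n + (j + 1))) := fun j =>
        mul_nonneg (mul_nonneg (hk _) (by have := hprod (j + 1); linarith))
          (V_nonneg hk hp _ _ fun n => hG _)
      have h1 : ∑ j ∈ Finset.range (m - 1 + 1), K (j + 1) / 2 *
          (1 + ∏ n ∈ Finset.range (j + 1), G n) *
          V' (m + l - (j + 1)) (fun n => G (n + (j + 1))) ≤
          ∑ j ∈ Finset.range (m + l - 1), K (j + 1) / 2 *
          (1 + ∏ n ∈ Finset.range (j + 1), G n) *
          V' (m + l - (j + 1)) (fun n => G (n + (j + 1))) := by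
        refine Finset.sum_le_sum_of_subset_of_nonneg ?_ fun j _ _ => hnn j
        intro j hj
        have := Finset.mem_range.1 hj
        exact Finset.mem_range.2 (by omega)
      rw [Finset.sum_range_succ, show m - 1 + 1 = m by omega, show m + l - m = l by omega] at h1
      have h2 : 0 ≤ gapTail K (m + l) / 2 * (1 + ∏ n ∈ Finset.range (m + l), G n) :=
        mul_nonneg (hp _) (by have := hprod (m + l); linarith)
      linarith
    refine le_trans ?_ hrhs
    have hlhs : c / m * (gapTail K l / 2) * (∏ n ∈ Finset.range l, G (m + n)) * V' m G =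
        c / m * R * V' m G := by rw [hR]; ring
    rw [hlhs, hV', V_eq _ _ m, ← hV', mul_add, Finset.mul_sum]
    refine add_le_add (Finset.sum_le_sum fun j hj => ?_) ?_
    · have hj' := Finset.mem_range.1 hj
      have h1 := ih (m - (j + 1)) (by omega) (by omega) (fun n => G (n + (j + 1))) fun n => hG _
      have e1 : m - (j + 1) + l = m + l - (j + 1) := by omega
      have e2 : ∏ n ∈ Finset.range l, G (m - (j + 1) + n + (j + 1)) =
          ∏ n ∈ Finset.range l, G (m + n) := by
        refine Finset.prod_congr rfl fun n _ => ?_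
        congr 1; omega
      rw [e1, e2] at h1
      have hm1 : (0 : ℝ) < ((m - (j + 1) : ℕ) : ℝ) := by
        have : 0 < m - (j + 1) := by omega
        exact_mod_cast this
      have h2 : c / m ≤ c / ((m - (j + 1) : ℕ) : ℝ) := by
        apply div_le_div_of_nonneg_left hc.le hm1
        exact_mod_cast (by omega : m - (j + 1) ≤ m)
      have hVn : 0 ≤ V' (m - (j + 1)) (fun n => G (n + (j + 1))) :=
        V_nonneg hk hp _ _ fun n => hG _
      have h3 : c / m * R * V' (m - (j + 1)) (fun n => G (n + (j + 1))) ≤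
          V' (m + l - (j + 1)) (fun n => G (n + (j + 1))) := by
        refine le_trans ?_ h1
        rw [mul_assoc (c / ((m - (j + 1) : ℕ) : ℝ)), ← hR]
        exact mul_le_mul_of_nonneg_right (mul_le_mul_of_nonneg_right h2 hR0) hVn
      have hp1 : 0 ≤ 1 + ∏ n ∈ Finset.range (j + 1), G n := by have := hprod (j + 1); linarith
      calc c / m * R * (K (j + 1) / 2 * (1 + ∏ n ∈ Finset.range (j + 1), G n) *
            V' (m - (j + 1)) (fun n => G (n + (j + 1)))) =
            K (j + 1) / 2 * (1 + ∏ n ∈ Finset.range (j + 1), G n) *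
            (c / m * R * V' (m - (j + 1)) (fun n => G (n + (j + 1)))) := by ring
        _ ≤ _ := mul_le_mul_of_nonneg_left h3 (mul_nonneg (hk _) hp1)
    · have hp1 : 0 ≤ 1 + ∏ n ∈ Finset.range m, G n := by have := hprod m; linarith
      have h1 : R ≤ V' l (fun n => G (n + m)) := by
        rw [hV', V_eq]
        have hnn : 0 ≤ ∑ j ∈ Finset.range (l - 1), K (j + 1) / 2 *
            (1 + ∏ n ∈ Finset.range (j + 1), G (n + m)) *
            V (fun n => K n / 2) (fun n => gapTail K n / 2) (l - (j + 1))
              (fun n => G (n + (j + 1) + m)) :=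
          Finset.sum_nonneg fun j _ => mul_nonneg (mul_nonneg (hk _) (by
            have : 0 ≤ ∏ n ∈ Finset.range (j + 1), G (n + m) :=
              Finset.prod_nonneg fun n _ => hG _
            linarith)) (V_nonneg hk hp _ _ fun n => hG _)
        have e : ∏ n ∈ Finset.range l, G (n + m) = ∏ n ∈ Finset.range l, G (m + n) :=
          Finset.prod_congr rfl fun n _ => by rw [add_comm]
        have h2 : R ≤ gapTail K l / 2 * (1 + ∏ n ∈ Finset.range l, G (n + m)) := by
          rw [hR, e]
          exact mul_le_mul_of_nonneg_left (by linarith) (hp _)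
        linarith
      have h2 := hhaz m hm
      calc c / m * R * (gapTail K m / 2 * (1 + ∏ n ∈ Finset.range m, G n)) =
            (c / m * gapTail K m) / 2 * (1 + ∏ n ∈ Finset.range m, G n) * R := by ring
        _ ≤ K m / 2 * (1 + ∏ n ∈ Finset.range m, G n) * R := by
            refine mul_le_mul_of_nonneg_right (mul_le_mul_of_nonneg_right ?_ hp1) hR0
            linarith
        _ ≤ _ := mul_le_mul_of_nonneg_left h1 (mul_nonneg (hk _) hp1)

end Pool.Agent.Helper964.Copolymer
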