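import Mathlib
import Pool.Agent.Helper964.Functional

open MeasureTheory ProbabilityTheory Set Filter Topology
open scoped ENNReal

namespace Pool.Agent.Helper964.Copolymer

open Pool.Agent.Helper964.Cons

variable {K : ℕ → ℝ} {α : ℝ} {Ω : Type*} [MeasurableSpace Ω] {P : Measure Ω}
  {T ζ : ℕ → Ω → ℕ}

/-- the sequence of (gap, sign) pairs -/
def seqOf (T ζ : ℕ → Ω → ℕ) (w : Ω) : ℕ → ℕ × ℕ := fun i => (T i w, ζ i w)

lemma measurable_pair (h : IsSignedRenewal P K T ζ) (i : ℕ) :
    Measurable (fun w => (T i w, ζ i w)) := (h.meas_T i).prodMk (h.meas_ζ i)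

lemma measurable_seqOf (h : IsSignedRenewal P K T ζ) : Measurable (seqOf T ζ) :=
  measurable_pi_lambda _ fun i => measurable_pair h i

lemma isBlockLaw_map (h : IsSignedRenewal P K T ζ) (i : ℕ) :
    IsBlockLaw (P.map (fun w => (T i w, ζ i w))) K := by
  have := h.indep.isProbabilityMeasure
  refine ⟨Measure.isProbabilityMeasure_map (measurable_pair h i).aemeasurable, fun n => ⟨?_, ?_⟩⟩
  · rw [Measure.map_apply (measurable_pair h i) (measurableSet_singleton _), ← (h.law i n).1]
    congr 1; ext w; simp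
  · rw [Measure.map_apply (measurable_pair h i) (measurableSet_singleton _), ← (h.law i n).2]
    congr 1; ext w; simp

lemma blockLaw_unique (hK : IsInterarrival K α) {ν ν' : Measure (ℕ × ℕ)} (h : IsBlockLaw ν K)
    (h' : IsBlockLaw ν' K) : ν = ν' := by
  refine Measure.ext_of_singleton fun a => ?_
  obtain ⟨n, s⟩ := a
  match s with
  | 0 => rw [(h.law n).1, (h'.law n).1]
  | 1 => rw [(h.law n).2, (h'.law n).2]
  | s + 2 => rw [h.null hK n _ (by omega), h'.null hK n _ (by omega)]

lemma map_seqOf (hK : IsInterarrival K α) (h : IsSignedRenewal P K T ζ) :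
    P.map (seqOf T ζ) = Measure.infinitePi fun _ : ℕ => P.map (fun w => (T 0 w, ζ 0 w)) := by
  have h1 := h.indep.map_fun_eq_infinitePi_map (measurable_pair h)
  have h2 : (fun i => P.map (fun w => (T i w, ζ i w))) =
      fun _ => P.map (fun w => (T 0 w, ζ 0 w)) := by
    funext i
    exact blockLaw_unique hK (isBlockLaw_map h i) (isBlockLaw_map h 0)
  rw [h2] at h1
  exact h1

/-- the site weights -/
noncomputable def site (lam h : ℝ) (om : ℕ → ℝ) (n : ℕ) : ℝ :=
  Real.exp (-2 * lam * (om (n + 1) + h))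

lemma site_pos (lam h : ℝ) (om : ℕ → ℝ) (n : ℕ) : 0 < site lam h om n := Real.exp_pos _

omit [MeasurableSpace Ω] in
lemma Delta_eq (n : ℕ) (w : Ω) [Decidable (Dl n (seqOf T ζ w))] :
    Delta T ζ n w = if Dl n (seqOf T ζ w) then 1 else 0 := by
  unfold Delta
  by_cases hD : Dl n (seqOf T ζ w)
  · rw [if_pos hD, if_pos]; exact hD
  · rw [if_neg hD, if_neg]; exact hD

open Classical in
omit [MeasurableSpace Ω] in
lemma weight_eq (lam h : ℝ) (om : ℕ → ℝ) (N : ℕ) (w : Ω) :
    weight T ζ lam h om N w = F N (site lam h om) (seqOf T ζ w) := by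
  unfold weight F
  rw [Finset.mul_sum, Real.exp_sum]
  have e : Finset.Icc 1 N = (Finset.range N).map ⟨fun n => n + 1, add_left_injective 1⟩ := by
    ext n
    simp only [Finset.mem_Icc, Finset.mem_map, Finset.mem_range, Function.Embedding.coeFn_mk]
    constructor
    · intro hn; exact ⟨n - 1, by omega, by omega⟩
    · rintro ⟨m, hm, rfl⟩; omega
  rw [e, Finset.prod_map]
  refine Finset.prod_congr rfl fun n _ => ?_
  simp only [Function.Embedding.coeFn_mk]
  rw [Delta_eq]
  by_cases hD : Dl (n + 1) (seqOf T ζ w)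
  · rw [if_pos hD, if_pos hD, mul_one]; rfl
  · rw [if_neg hD, if_neg hD, mul_zero, mul_zero, Real.exp_zero]

/-- abbreviation for the recursion functional of the model -/
noncomputable def VK (K : ℕ → ℝ) (N : ℕ) (G : ℕ → ℝ) : ℝ :=
  V (fun n => K n / 2) (fun n => gapTail K n / 2) N G

lemma integral_F (hK : IsInterarrival K α) (h : IsSignedRenewal P K T ζ) (N : ℕ) (hN : 1 ≤ N)
    (G : ℕ → ℝ) : ∫ w, F N G (seqOf T ζ w) ∂P = VK K N G := by
  rw [VK, ← Wc_eq_V hK (isBlockLaw_map h 0) N hN G, Wc, ← map_seqOf hK h,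
    integral_map (measurable_seqOf h).aemeasurable (measurable_F N G).aestronglyMeasurable]

lemma integrable_F_seq (h : IsSignedRenewal P K T ζ) (N : ℕ) (G : ℕ → ℝ) :
    Integrable (fun w => F N G (seqOf T ζ w)) P := by
  have := h.indep.isProbabilityMeasure
  refine Integrable.of_bound ((measurable_F N G).comp (measurable_seqOf h)).aestronglyMeasurable
    (∏ n ∈ Finset.range N, (|G n| + 1)) (Eventually.of_forall fun x => ?_)
  rw [Real.norm_eq_abs]
  exact abs_F_le N G _

lemma Z_eq (hK : IsInterarrival K α) (h : IsSignedRenewal P K T ζ) (N : ℕ) (hN : 1 ≤ N)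
    (lam hh : ℝ) (om : ℕ → ℝ) : Z P T ζ lam hh om N = VK K N (site lam hh om) := by
  rw [← integral_F hK h N hN, Z]
  exact integral_congr_ae (Eventually.of_forall fun w => weight_eq lam hh om N w)

omit [MeasurableSpace Ω] in
lemma weight_nonneg (lam hh : ℝ) (om : ℕ → ℝ) (N : ℕ) (w : Ω) :
    0 ≤ weight T ζ lam hh om N w := (Real.exp_pos _).le

lemma integrable_weight (h : IsSignedRenewal P K T ζ) (lam hh : ℝ) (om : ℕ → ℝ) (N : ℕ) :
    Integrable (fun w => weight T ζ lam hh om N w) P := by
  have e : (fun w => weight T ζ lam hh om N w) = fun w => F N (site lam hh om) (seqOf T ζ w) :=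
    funext fun w => weight_eq lam hh om N w
  rw [e]; exact integrable_F_seq h N _

omit [MeasurableSpace Ω] in
lemma seqOf_cons (w : Ω) : seqOf T ζ w = cons ((T 0 w, ζ 0 w), fun i => seqOf T ζ w (i + 1)) := by
  funext i
  cases i <;> rfl

lemma measurableSet_upEvent (h : IsSignedRenewal P K T ζ) (ε : ℝ) (N : ℕ) :
    MeasurableSet (upEvent T ζ ε N) := by
  classical
  have : upEvent T ζ ε N = ⋂ n : ℕ, ⋂ (_ : ε * N ≤ n), ⋂ (_ : n ≤ N),
      (seqOf T ζ) ⁻¹' {x | Dl n x}ᶜ := by
    ext w
    simp only [upEvent, mem_ofPred_eq, mem_iInter, mem_preimage, mem_compl_iff]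
    refine forall_congr' fun n => forall_congr' fun _ => forall_congr' fun _ => ?_
    rw [Delta_eq]
    by_cases hD : Dl n (seqOf T ζ w) <;> simp [hD]
  rw [this]
  refine MeasurableSet.iInter fun n => MeasurableSet.iInter fun _ => MeasurableSet.iInter fun _ =>
    ?_
  exact (measurable_seqOf h) (measurableSet_Dl n).compl

lemma measure_first (hK : IsInterarrival K α) (h : IsSignedRenewal P K T ζ) (N : ℕ) :
    P.real {w | N ≤ T 0 w ∧ ζ 0 w = 0} = gapTail K N / 2 := by
  have hs : {w | N ≤ T 0 w ∧ ζ 0 w = 0} = ⋃ n : ℕ, {w | T 0 w = n + N ∧ ζ 0 w = 0} := by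
    ext w
    simp only [mem_ofPred_eq, mem_iUnion]
    constructor
    · rintro ⟨h1, h2⟩; exact ⟨T 0 w - N, by omega, h2⟩
    · rintro ⟨n, h1, h2⟩; exact ⟨by omega, h2⟩
  have hm : ∀ n : ℕ, MeasurableSet {w | T 0 w = n + N ∧ ζ 0 w = 0} := fun n =>
    (measurableSet_eq_fun (h.meas_T 0) measurable_const).inter
      (measurableSet_eq_fun (h.meas_ζ 0) measurable_const)
  rw [Measure.real, hs, measure_iUnion _ hm]
  · have : ∀ n : ℕ, P {w | T 0 w = n + N ∧ ζ 0 w = 0} = ENNReal.ofReal (K (n + N) / 2) :=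
      fun n => (h.law 0 (n + N)).1
    simp only [this]
    rw [← ENNReal.ofReal_tsum_of_nonneg (fun n => by have := hK.nonneg (n + N); positivity)
      ((hK.summable_tail N).div_const 2), ENNReal.toReal_ofReal, tsum_div_const]
    · rfl
    · exact tsum_nonneg fun n => by have := hK.nonneg (n + N); positivity
  · intro i j hij
    rw [Function.onFun, Set.disjoint_left]
    intro w h1 h2
    simp only [mem_ofPred_eq] at h1 h2
    omega

/-- lower bound for the restricted partition function of `upEvent` -/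
lemma up_lower (hK : IsInterarrival K α) (h : IsSignedRenewal P K T ζ) (N : ℕ)
    (lam hh : ℝ) (om : ℕ → ℝ) (ε : ℝ) :
    gapTail K N / 2 ≤ ∫ w in upEvent T ζ ε N, weight T ζ lam hh om N w ∂P := by
  classical
  have := h.indep.isProbabilityMeasure
  set A : Set Ω := {w | N ≤ T 0 w ∧ ζ 0 w = 0} with hA
  have hAm : MeasurableSet A := (measurableSet_le measurable_const (h.meas_T 0)).inter
      (measurableSet_eq_fun (h.meas_ζ 0) measurable_const)
  have hD : ∀ w ∈ A, ∀ n, n ≤ N → ¬ Dl n (seqOf T ζ w) := by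
    intro w hw n hn hDl
    rcases Nat.eq_zero_or_pos n with h0 | h0
    · obtain ⟨i, hi, _⟩ := hDl; omega
    · rw [seqOf_cons, Dl_cons_le _ h0 (hn.trans hw.1)] at hDl
      have := hw.2; omega
  have hsub : A ⊆ upEvent T ζ ε N := by
    intro w hw n _ hn
    rw [Delta_eq, if_neg (hD w hw n hn)]
  have h1 : ∫ w in A, weight T ζ lam hh om N w ∂P = P.real A := by
    have : ∫ w in A, weight T ζ lam hh om N w ∂P = ∫ w in A, (1 : ℝ) ∂P := by
      refine setIntegral_congr_fun hAm fun w hw => ?_
      rw [weight_eq]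
      unfold F
      refine Finset.prod_eq_one fun n hn => ?_
      have := Finset.mem_range.1 hn
      rw [if_neg (hD w hw (n + 1) (by omega))]
    rw [this]; simp
  rw [← measure_first hK h N, ← h1]
  refine setIntegral_mono_set (integrable_weight h lam hh om N).integrableOn
    (Eventually.of_forall fun w => weight_nonneg lam hh om N w) (Eventually.of_forall hsub)

/-- upper bound for the restricted partition function of `upEvent` -/
lemma up_upper (hK : IsInterarrival K α) (h : IsSignedRenewal P K T ζ) (m l : ℕ) (hm : 1 ≤ m)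
    (lam hh : ℝ) (om : ℕ → ℝ) (ε : ℝ) (hε : ε * ((m + l : ℕ) : ℝ) ≤ m + 1) :
    ∫ w in upEvent T ζ ε (m + l), weight T ζ lam hh om (m + l) w ∂P ≤
      VK K m (site lam hh om) := by
  classical
  rw [← integral_F hK h m hm]
  have h1 : ∫ w in upEvent T ζ ε (m + l), weight T ζ lam hh om (m + l) w ∂P =
      ∫ w in upEvent T ζ ε (m + l), F m (site lam hh om) (seqOf T ζ w) ∂P := by
    refine setIntegral_congr_fun (measurableSet_upEvent h ε _) fun w hw => ?_
    rw [weight_eq]
    unfold F
    rw [Finset.prod_range_add]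
    have : ∏ n ∈ Finset.range l, (if Dl (m + n + 1) (seqOf T ζ w) then site lam hh om (m + n)
        else 1) = 1 := by
      refine Finset.prod_eq_one fun n hn => ?_
      have hn' := Finset.mem_range.1 hn
      have h2 := hw (m + n + 1) (by
        refine hε.trans ?_
        push_cast
        have : (0 : ℝ) ≤ n := Nat.cast_nonneg n
        linarith) (by omega)
      rw [Delta_eq] at h2
      by_cases hD : Dl (m + n + 1) (seqOf T ζ w)
      · rw [if_pos hD] at h2; norm_num at h2
      · rw [if_neg hD]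
    rw [this, mul_one]
  rw [h1]
  exact setIntegral_le_integral (integrable_F_seq h m _)
    (Eventually.of_forall fun w => F_nonneg m (fun n => (site_pos lam hh om n).le) _)

lemma VK_pos (hK : IsInterarrival K α) (N : ℕ) (hN : 1 ≤ N) {G : ℕ → ℝ} (hG : ∀ n, 0 ≤ G n) :
    0 < VK K N G := by
  have hk : ∀ n, 0 ≤ K n / 2 := fun n => by have := hK.nonneg n; positivity
  have hp : ∀ n, 0 ≤ gapTail K n / 2 := fun n => by have := hK.tail_nonneg n; positivity
  have hprod : ∀ a, 0 ≤ ∏ n ∈ Finset.range a, G n := fun m => Finset.prod_nonneg fun n _ => hG n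
  rw [VK, V_eq]
  refine add_pos_of_nonneg_of_pos (Finset.sum_nonneg fun j _ => mul_nonneg (mul_nonneg (hk _) (by
    have := hprod (j + 1); linarith)) (V_nonneg hk hp _ _ fun n => hG _)) ?_
  have h1 := hK.tail_pos N hN
  have h2 := hprod N
  positivity

lemma VK_ge_tail (hK : IsInterarrival K α) (N : ℕ) {G : ℕ → ℝ} (hG : ∀ n, 0 ≤ G n) :
    gapTail K N / 2 ≤ VK K N G := by
  have hk : ∀ n, 0 ≤ K n / 2 := fun n => by have := hK.nonneg n; positivity
  have hp : ∀ n, 0 ≤ gapTail K n / 2 := fun n => by have := hK.tail_nonneg n; positivity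
  have hprod : ∀ a, 0 ≤ ∏ n ∈ Finset.range a, G n := fun m => Finset.prod_nonneg fun n _ => hG n
  rw [VK, V_eq]
  have h1 : 0 ≤ ∑ j ∈ Finset.range (N - 1), K (j + 1) / 2 *
      (1 + ∏ n ∈ Finset.range (j + 1), G n) *
      V (fun n => K n / 2) (fun n => gapTail K n / 2) (N - (j + 1)) (fun n => G (n + (j + 1))) :=
    Finset.sum_nonneg fun j _ => mul_nonneg (mul_nonneg (hk _) (by
      have := hprod (j + 1); linarith)) (V_nonneg hk hp _ _ fun n => hG _)
  have h2 : gapTail K N / 2 ≤ gapTail K N / 2 * (1 + ∏ n ∈ Finset.range N, G n) :=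
    le_mul_of_one_le_right (hp N) (by have := hprod N; linarith)
  linarith

end Pool.Agent.Helper964.Copolymer
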