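import Mathlib
import Pool.Agent.Helper964.Model

open MeasureTheory ProbabilityTheory Set Filter Topology
open scoped ENNReal

namespace Pool.Agent.Helper964.Copolymer

variable {K : ℕ → ℝ} {α : ℝ} {Ω : Type*} [MeasurableSpace Ω] {P : Measure Ω}
  {T ζ : ℕ → Ω → ℕ} {Ω' : Type*} [MeasurableSpace Ω'] {Q : Measure Ω'} {om : ℕ → Ω' → ℝ}

/-- The charges: i.i.d., centred, of unit variance, with all exponential moments. -/
structure IsDisorder (Q : Measure Ω') (om : ℕ → Ω' → ℝ) : Prop where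
  meas : ∀ n, Measurable (om n)
  indep : iIndepFun om Q
  ident : ∀ n, IdentDistrib (om n) (om 0) Q Q
  mean : ∫ v, om 0 v ∂Q = 0
  var : ∫ v, (om 0 v) ^ 2 ∂Q = 1
  exp_int : ∀ t : ℝ, Integrable (fun v => Real.exp (t * om 0 v)) Q

/-- the site weights as random variables -/
noncomputable def siteV (lam hh : ℝ) (om : ℕ → Ω' → ℝ) (n : ℕ) (v : Ω') : ℝ :=
  site lam hh (fun k => om k v) n

/-- `ρ = E exp (-2 λ γ (ω_1 + h))` -/
noncomputable def rho (Q : Measure Ω') (om : ℕ → Ω' → ℝ) (γ lam hh : ℝ) : ℝ :=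
  Real.exp (-2 * lam * γ * hh) * mgf (om 0) Q (-2 * lam * γ)

lemma site_moment (hQ : IsDisorder Q om) (γ lam hh : ℝ) (A : Finset ℕ) :
    Integrable (fun v => ∏ n ∈ A, (siteV lam hh om n v) ^ γ) Q ∧
      ∫ v, ∏ n ∈ A, (siteV lam hh om n v) ^ γ ∂Q = (rho Q om γ lam hh) ^ A.card := by
  have hprob := hQ.indep.isProbabilityMeasure
  set X : ℕ → Ω' → ℝ := fun n => om (n + 1) with hX
  have hXm : ∀ n, Measurable (X n) := fun n => hQ.meas (n + 1)
  have hXi : iIndepFun X Q := hQ.indep.precomp (g := fun n : ℕ => n + 1) (add_left_injective 1)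
  have hXid : ∀ n, IdentDistrib (X n) (om 0) Q Q := fun n => hQ.ident (n + 1)
  set t : ℝ := -2 * lam * γ with ht
  have hXe : ∀ n, Integrable (fun v => Real.exp (t * X n v)) Q := by
    intro n
    have h1 : IdentDistrib (fun v => Real.exp (t * X n v)) (fun v => Real.exp (t * om 0 v)) Q Q :=
      (hXid n).comp (u := fun x => Real.exp (t * x)) (by fun_prop)
    exact h1.integrable_iff.2 (hQ.exp_int t)
  have hexp : ∀ v, ∏ n ∈ A, (siteV lam hh om n v) ^ γ =
      Real.exp (t * hh) ^ A.card * Real.exp (t * (∑ n ∈ A, X n) v) := by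
    intro v
    have h1 : ∀ n, (siteV lam hh om n v) ^ γ = Real.exp (t * hh) * Real.exp (t * X n v) := by
      intro n
      rw [siteV, site, ← Real.exp_mul, ← Real.exp_add]
      congr 1
      simp only [hX, ht]; ring
    simp only [h1]
    rw [Finset.prod_mul_distrib, Finset.prod_const, ← Real.exp_sum, Finset.sum_apply,
      Finset.mul_sum]
  simp only [hexp]
  have hint : Integrable (fun v => Real.exp (t * (∑ n ∈ A, X n) v)) Q :=
    hXi.integrable_exp_mul_sum hXm (fun n _ => hXe n)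
  refine ⟨hint.const_mul _, ?_⟩
  rw [integral_const_mul]
  have h2 : ∫ v, Real.exp (t * (∑ n ∈ A, X n) v) ∂Q = mgf (∑ n ∈ A, X n) Q t := rfl
  rw [h2, hXi.mgf_sum hXm, rho, mul_pow]
  congr 1
  have h3 : ∀ n ∈ A, mgf (X n) Q t = mgf (om 0) Q t := fun n _ =>
    mgf_congr_of_identDistrib (X n) (om 0) (hXid n) t
  rw [Finset.prod_congr rfl h3, Finset.prod_const]

/-- the majorant of `Z^γ` -/
noncomputable def U (K : ℕ → ℝ) (γ lam hh : ℝ) (om : ℕ → Ω' → ℝ) (N : ℕ) (v : Ω') : ℝ :=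
  V (fun n => (K n / 2) ^ γ) (fun n => (gapTail K n / 2) ^ γ) N
    (fun n => (siteV lam hh om n v) ^ γ)

lemma U_integral (hQ : IsDisorder Q om) (γ lam hh : ℝ) (N : ℕ) :
    Integrable (U K γ lam hh om N) Q ∧ ∫ v, U K γ lam hh om N v ∂Q =
      V (fun n => (K n / 2) ^ γ) (fun n => (gapTail K n / 2) ^ γ) N (fun _ => rho Q om γ lam hh) := by
  have h := V_expect (Q := Q) (fun n => (K n / 2) ^ γ) (fun n => (gapTail K n / 2) ^ γ)
    (fun n v => (siteV lam hh om n v) ^ γ) (rho Q om γ lam hh) (site_moment hQ γ lam hh) N 0 ∅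
    (by simp)
  have e : U K γ lam hh om N = fun v => V (fun n => (K n / 2) ^ γ)
      (fun n => (gapTail K n / 2) ^ γ) N (fun n => (siteV lam hh om n v) ^ γ) := rfl
  rw [e]
  simpa using h

omit [MeasurableSpace Ω'] in
lemma Z_rpow_le_U (hK : IsInterarrival K α) (h : IsSignedRenewal P K T ζ) {γ : ℝ} (h0 : 0 < γ)
    (h1 : γ ≤ 1) (lam hh : ℝ) (N : ℕ) (hN : 1 ≤ N) (v : Ω') :
    (Z P T ζ lam hh (fun n => om n v) N) ^ γ ≤ U K γ lam hh om N v := by
  rw [Z_eq hK h N hN]
  exact V_rpow_le (fun n => by have := hK.nonneg n; positivity)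
    (fun n => by have := hK.tail_nonneg n; positivity) h0 h1 N _ fun n => (site_pos _ _ _ n).le

omit [MeasurableSpace Ω'] in
lemma U_nonneg (hK : IsInterarrival K α) (γ lam hh : ℝ) (N : ℕ) (v : Ω') :
    0 ≤ U K γ lam hh om N v := by
  refine V_nonneg (fun n => Real.rpow_nonneg (by have := hK.nonneg n; positivity) _)
    (fun n => Real.rpow_nonneg (by have := hK.tail_nonneg n; positivity) _) _ _
    fun n => Real.rpow_nonneg (site_pos _ _ _ n).le _

/-- polynomial decay of the majorant -/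
lemma frac_bound (hK : IsInterarrival K α) {γ ρ s : ℝ} (h0 : 1 / 2 < γ)
    (h2 : 1 < γ + γ * α / 2) (hρ0 : 0 ≤ ρ) (hρ1 : ρ ≤ 1) (hs : s < 1)
    (hsum : ∀ M, ∑ j ∈ Finset.range M, (K (j + 1) / 2) ^ γ * (1 + ρ ^ (j + 1)) ≤ s) :
    ∃ B : ℝ, 0 ≤ B ∧ ∀ N : ℕ, 1 ≤ N →
      V (fun n => (K n / 2) ^ γ) (fun n => (gapTail K n / 2) ^ γ) N (fun _ => ρ) ≤
        B * (N : ℝ) ^ (-(γ * α)) := by
  have hα := hK.alpha_pos
  have hγ0 : 0 < γ := by linarith
  obtain ⟨C, hC, hle⟩ := hK.le
  obtain ⟨D, hD, htl⟩ := hK.tail_le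
  have hs0 : 0 ≤ s := by simpa using hsum 0
  have hρp : ∀ n : ℕ, 0 ≤ 1 + ρ ^ n ∧ 1 + ρ ^ n ≤ 2 := fun n => by
    have h3 := pow_nonneg hρ0 n
    have h4 := pow_le_one₀ (n := n) hρ0 hρ1
    constructor <;> linarith
  refine renewal_ineq (θ := γ * α) (γ := γ) (s := s) (C := (C / 2) ^ γ * 2)
    (D := (D / 2) ^ γ * 2) (by positivity) h0 h2 hs0 hs (by positivity)
    (q := fun n => (K n / 2) ^ γ * (1 + ρ ^ n)) ?_ ?_ hsum ?_
  · intro n
    exact mul_nonneg (Real.rpow_nonneg (by have := hK.nonneg n; positivity) _) (hρp n).1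
  · intro n hn
    have hn' : (0 : ℝ) < n := by exact_mod_cast hn
    have h3 : (K n / 2) ^ γ ≤ (C / 2) ^ γ * (n : ℝ) ^ (-(γ * α + γ)) := by
      have h4 : K n / 2 ≤ C / 2 * (n : ℝ) ^ (-(1 + α)) := by have := hle n hn; linarith
      calc (K n / 2) ^ γ ≤ (C / 2 * (n : ℝ) ^ (-(1 + α))) ^ γ :=
            Real.rpow_le_rpow (by have := hK.nonneg n; positivity) h4 hγ0.le
        _ = _ := by
            rw [Real.mul_rpow (by positivity) (Real.rpow_nonneg hn'.le _), ← Real.rpow_mul hn'.le]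
            congr 2; ring
    calc (K n / 2) ^ γ * (1 + ρ ^ n) ≤ ((C / 2) ^ γ * (n : ℝ) ^ (-(γ * α + γ))) * 2 :=
          mul_le_mul h3 (hρp n).2 (hρp n).1 (by positivity)
      _ = _ := by ring
  · intro N hN
    have hN' : (0 : ℝ) < N := by exact_mod_cast hN
    rw [V_eq]
    refine add_le_add (le_of_eq ?_) ?_
    · refine Finset.sum_congr rfl fun j _ => ?_
      simp only [Finset.prod_const, Finset.card_range]
    · simp only [Finset.prod_const, Finset.card_range]
      have h3 : (gapTail K N / 2) ^ γ ≤ (D / 2) ^ γ * (N : ℝ) ^ (-(γ * α)) := by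
        have h4 : gapTail K N / 2 ≤ D / 2 * (N : ℝ) ^ (-α) := by have := htl N hN; linarith
        calc (gapTail K N / 2) ^ γ ≤ (D / 2 * (N : ℝ) ^ (-α)) ^ γ :=
              Real.rpow_le_rpow (by have := hK.tail_nonneg N; positivity) h4 hγ0.le
          _ = _ := by
              rw [Real.mul_rpow (by positivity) (Real.rpow_nonneg hN'.le _),
                ← Real.rpow_mul hN'.le]
              congr 2; ring
      calc (gapTail K N / 2) ^ γ * (1 + ρ ^ N) ≤ ((D / 2) ^ γ * (N : ℝ) ^ (-(γ * α))) * 2 :=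
            mul_le_mul h3 (hρp N).2 (hρp N).1 (by positivity)
        _ = _ := by ring

/-- measurability of the functional in the disorder -/
lemma V_measurable (k p : ℕ → ℝ) (N : ℕ) (G : ℕ → Ω' → ℝ) (hG : ∀ n, Measurable (G n)) :
    Measurable (fun v => V k p N (fun n => G n v)) := by
  induction N using Nat.strong_induction_on generalizing G with
  | _ N ih =>
    have e : (fun v => V k p N (fun n => G n v)) = fun v =>
        (∑ j ∈ Finset.range (N - 1), k (j + 1) * (1 + ∏ n ∈ Finset.range (j + 1), G n v) *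
        V k p (N - (j + 1)) (fun n => G (n + (j + 1)) v)) +
        p N * (1 + ∏ n ∈ Finset.range N, G n v) := by
      funext v; rw [V_eq]
    rw [e]
    refine Measurable.add (Finset.measurable_sum _ fun j hj => ?_) ?_
    · have hj' := Finset.mem_range.1 hj
      exact (measurable_const.mul (measurable_const.add
        (Finset.measurable_prod _ fun n _ => hG n))).mul
        (ih _ (by omega) (fun n => G (n + (j + 1))) fun n => hG _)
    · exact measurable_const.mul (measurable_const.add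
        (Finset.measurable_prod _ fun n _ => hG n))

lemma measurable_siteV (hQ : IsDisorder Q om) (lam hh : ℝ) (n : ℕ) :
    Measurable (siteV lam hh om n) := by
  unfold siteV site
  have := hQ.meas (n + 1)
  fun_prop

lemma Z_measurable (hK : IsInterarrival K α) (h : IsSignedRenewal P K T ζ)
    (hQ : IsDisorder Q om) (lam hh : ℝ) (N : ℕ) (hN : 1 ≤ N) :
    Measurable (fun v => Z P T ζ lam hh (fun n => om n v) N) := by
  have e : (fun v => Z P T ζ lam hh (fun n => om n v) N) =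
      fun v => V (fun n => K n / 2) (fun n => gapTail K n / 2) N (fun n => siteV lam hh om n v) :=
    funext fun v => Z_eq hK h N hN lam hh _
  rw [e]
  exact V_measurable _ _ _ _ (measurable_siteV hQ lam hh)

/-- Sufficient condition for delocalization. -/
lemma mem_deloc (hK : IsInterarrival K α) (h : IsSignedRenewal P K T ζ)
    (hQ : IsDisorder Q om) {γ lam hh s : ℝ} (hlam : 0 ≤ lam) (hhh : 0 ≤ hh) (h0 : 1 / 2 < γ)
    (h1 : γ ≤ 1) (h2 : 1 < γ + γ * α / 2) (hρ1 : rho Q om γ lam hh ≤ 1) (hs : s < 1)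
    (hsum : ∀ M, ∑ j ∈ Finset.range M, (K (j + 1) / 2) ^ γ *
      (1 + (rho Q om γ lam hh) ^ (j + 1)) ≤ s) :
    (lam, hh) ∈ deloc P T ζ Q om := by
  have hprob := hQ.indep.isProbabilityMeasure
  have hγ0 : 0 < γ := by linarith
  have hα := hK.alpha_pos
  have hρ0 : 0 ≤ rho Q om γ lam hh := mul_nonneg (Real.exp_pos _).le mgf_nonneg
  obtain ⟨B, hB0, hB⟩ := frac_bound hK h0 h2 hρ0 hρ1 hs hsum
  obtain ⟨c, hc, htl⟩ := hK.tail_ge
  refine ⟨hlam, hhh, ?_⟩
  -- pointwise bounds
  have hlow : ∀ N : ℕ, 1 ≤ N → ∀ v, Real.log (gapTail K N / 2) ≤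
      Real.log (Z P T ζ lam hh (fun n => om n v) N) := by
    intro N hN v
    refine Real.log_le_log (by have := hK.tail_pos N hN; positivity) ?_
    rw [Z_eq hK h N hN]
    exact VK_ge_tail hK N fun n => (site_pos _ _ _ n).le
  have hupp : ∀ N : ℕ, 1 ≤ N → ∀ v, Real.log (Z P T ζ lam hh (fun n => om n v) N) ≤
      U K γ lam hh om N v / γ := by
    intro N hN v
    have hZ : 0 < Z P T ζ lam hh (fun n => om n v) N := by
      rw [Z_eq hK h N hN]; exact VK_pos hK N hN fun n => (site_pos _ _ _ n).le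
    have h3 : Real.log (Z P T ζ lam hh (fun n => om n v) N) * γ ≤ U K γ lam hh om N v := by
      have h4 := Real.log_le_sub_one_of_pos (Real.rpow_pos_of_pos hZ γ)
      rw [Real.log_rpow hZ] at h4
      have h5 := Z_rpow_le_U (om := om) hK h hγ0 h1 lam hh N hN v
      linarith
    rw [le_div_iff₀ hγ0]; exact h3
  have hint : ∀ N : ℕ, 1 ≤ N → Integrable
      (fun v => Real.log (Z P T ζ lam hh (fun n => om n v) N)) Q := by
    intro N hN
    refine Integrable.mono' (g := fun v => |Real.log (gapTail K N / 2)| +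
      U K γ lam hh om N v / γ) ((integrable_const _).add ((U_integral hQ γ lam hh N).1.div_const _))
      (Real.measurable_log.comp (Z_measurable hK h hQ lam hh N hN)).aestronglyMeasurable
      (Eventually.of_forall fun v => ?_)
    rw [Real.norm_eq_abs, abs_le]
    have h3 := hlow N hN v
    have h4 := hupp N hN v
    have h5 := neg_abs_le (Real.log (gapTail K N / 2))
    have h6 : 0 ≤ U K γ lam hh om N v / γ := div_nonneg (U_nonneg hK γ lam hh N v) hγ0.le
    have h7 := abs_nonneg (Real.log (gapTail K N / 2))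
    constructor <;> linarith
  have hL : ∀ N : ℕ, 1 ≤ N → 1 / (N : ℝ) * Real.log (gapTail K N / 2) ≤
      1 / (N : ℝ) * ∫ v, Real.log (Z P T ζ lam hh (fun n => om n v) N) ∂Q := by
    intro N hN
    refine mul_le_mul_of_nonneg_left ?_ (by positivity)
    have := integral_mono (integrable_const (Real.log (gapTail K N / 2))) (hint N hN)
      (fun v => hlow N hN v)
    simpa using this
  have hU : ∀ N : ℕ, 1 ≤ N → 1 / (N : ℝ) * ∫ v, Real.log (Z P T ζ lam hh (fun n => om n v) N) ∂Q ≤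
      1 / (N : ℝ) * (B / γ) := by
    intro N hN
    have hN' : (0 : ℝ) < N := by exact_mod_cast hN
    refine mul_le_mul_of_nonneg_left ?_ (by positivity)
    have h3 := integral_mono (hint N hN) ((U_integral (K := K) hQ γ lam hh N).1.div_const γ)
      (fun v => hupp N hN v)
    refine h3.trans ?_
    rw [integral_div, (U_integral hQ γ lam hh N).2]
    refine div_le_div_of_nonneg_right ((hB N hN).trans ?_) hγ0.le
    have h4 : (N : ℝ) ^ (-(γ * α)) ≤ 1 :=
      Real.rpow_le_one_of_one_le_of_nonpos (by exact_mod_cast hN) (by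
        have : 0 < γ * α := by positivity
        linarith)
    calc B * (N : ℝ) ^ (-(γ * α)) ≤ B * 1 := mul_le_mul_of_nonneg_left h4 hB0
      _ = B := mul_one B
  have hlog : Tendsto (fun N : ℕ => 1 / (N : ℝ) * (Real.log (c / 2) + -α * Real.log N)) atTop
      (𝓝 0) := by
    have h3 : Tendsto (fun N : ℕ => Real.log (N : ℝ) / (N : ℝ)) atTop (𝓝 0) := by
      have := Real.isLittleO_log_id_atTop.tendsto_div_nhds_zero.comp tendsto_natCast_atTop_atTop
      exact this
    have h4 : Tendsto (fun N : ℕ => 1 / (N : ℝ)) atTop (𝓝 0) := tendsto_one_div_atTop_nhds_zero_nat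
    have h5 := (h4.mul_const (Real.log (c / 2))).add (h3.const_mul (-α))
    simp only [zero_mul, mul_zero, add_zero] at h5
    refine h5.congr fun N => ?_
    ring
  have hcst : Tendsto (fun N : ℕ => 1 / (N : ℝ) * (B / γ)) atTop (𝓝 0) := by
    have h4 : Tendsto (fun N : ℕ => 1 / (N : ℝ)) atTop (𝓝 0) := tendsto_one_div_atTop_nhds_zero_nat
    simpa using h4.mul_const (B / γ)
  refine tendsto_of_tendsto_of_tendsto_of_le_of_le' hlog hcst ?_ ?_
  · filter_upwards [eventually_ge_atTop 1] with N hN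
    refine le_trans ?_ (hL N hN)
    have hN' : (0 : ℝ) < N := by exact_mod_cast hN
    refine mul_le_mul_of_nonneg_left ?_ (by positivity)
    have h3 : c / 2 * (N : ℝ) ^ (-α) ≤ gapTail K N / 2 := by have := htl N hN; linarith
    have h4 := Real.log_le_log (by positivity) h3
    rwa [Real.log_mul (by positivity) (by positivity), Real.log_rpow hN'] at h4
  · filter_upwards [eventually_ge_atTop 1] with N hN using hU N hN

/-- If the fractional moment condition holds then the polymer probability of `upEvent` does not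
tend to zero, almost surely. -/
lemma limsup_pos (hK : IsInterarrival K α) (h : IsSignedRenewal P K T ζ)
    (hQ : IsDisorder Q om) {γ lam hh s : ℝ} (h0 : 1 / 2 < γ)
    (h1 : γ ≤ 1) (h2 : 1 < γ + γ * α / 2) (hρ1 : rho Q om γ lam hh ≤ 1) (hs : s < 1)
    (hsum : ∀ M, ∑ j ∈ Finset.range M, (K (j + 1) / 2) ^ γ *
      (1 + (rho Q om γ lam hh) ^ (j + 1)) ≤ s) :
    ∀ᵐ v ∂Q, ∃ δ : ℝ, 0 < δ ∧ ∀ ε : ℝ, ∃ᶠ N : ℕ in atTop,
      δ ≤ polymer P T ζ lam hh (fun n => om n v) N (upEvent T ζ ε N) := by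
  have hprob := hQ.indep.isProbabilityMeasure
  have hγ0 : 0 < γ := by linarith
  have hα := hK.alpha_pos
  have hρ0 : 0 ≤ rho Q om γ lam hh := mul_nonneg (Real.exp_pos _).le mgf_nonneg
  obtain ⟨B, hB0, hB⟩ := frac_bound hK h0 h2 hρ0 hρ1 hs hsum
  obtain ⟨c, hc, htl⟩ := hK.tail_ge
  -- good events
  set S : ℕ → ℕ → Set Ω' := fun A N =>
    {v | ((A : ℝ) + 1) * (N : ℝ) ^ (-(γ * α)) ≤ U K γ lam hh om N v}ᶜ with hS
  have hUm : ∀ N, Measurable (U K γ lam hh om N) := by
    intro N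
    refine V_measurable _ _ N (fun n v => (siteV lam hh om n v) ^ γ) fun n => ?_
    exact (measurable_siteV hQ lam hh n).pow_const γ
  have hSm : ∀ A N, MeasurableSet (S A N) := fun A N =>
    (measurableSet_le measurable_const (hUm N)).compl
  have hSmeas : ∀ A N : ℕ, 1 ≤ N → 1 - B / ((A : ℝ) + 1) ≤ Q.real (S A N) := by
    intro A N hN
    have hN' : (0 : ℝ) < N := by exact_mod_cast hN
    have h3 := mul_meas_ge_le_integral_of_nonneg (μ := Q)
      (Eventually.of_forall fun v => U_nonneg (om := om) hK γ lam hh N v)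
      (U_integral (K := K) hQ γ lam hh N).1 (((A : ℝ) + 1) * (N : ℝ) ^ (-(γ * α)))
    rw [(U_integral hQ γ lam hh N).2] at h3
    have h4 := h3.trans (hB N hN)
    have hpos : 0 < (N : ℝ) ^ (-(γ * α)) := Real.rpow_pos_of_pos hN' _
    have h5 : Q.real {v | ((A : ℝ) + 1) * (N : ℝ) ^ (-(γ * α)) ≤ U K γ lam hh om N v} ≤
        B / ((A : ℝ) + 1) := by
      rw [le_div_iff₀ (by positivity)]
      have h6 : ((A : ℝ) + 1) * Q.real {v | ((A : ℝ) + 1) * (N : ℝ) ^ (-(γ * α)) ≤
          U K γ lam hh om N v} * (N : ℝ) ^ (-(γ * α)) ≤ B * (N : ℝ) ^ (-(γ * α)) := by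
        calc _ = ((A : ℝ) + 1) * (N : ℝ) ^ (-(γ * α)) * Q.real {v | ((A : ℝ) + 1) *
              (N : ℝ) ^ (-(γ * α)) ≤ U K γ lam hh om N v} := by ring
          _ ≤ _ := h4
      have := le_of_mul_le_mul_right h6 hpos
      linarith
    have h6 : Q.real (S A N) = 1 - Q.real {v | ((A : ℝ) + 1) * (N : ℝ) ^ (-(γ * α)) ≤
        U K γ lam hh om N v} := by
      rw [hS, probReal_compl_eq_one_sub (measurableSet_le measurable_const (hUm N))]
    rw [h6]; linarith
  -- infinitely often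
  have hIO : ∀ A : ℕ, 1 - B / ((A : ℝ) + 1) ≤ Q.real {v | ∃ᶠ N in atTop, v ∈ S A N} := by
    intro A
    have e : {v | ∃ᶠ N in atTop, v ∈ S A N} = ⋂ k : ℕ, ⋃ N, ⋃ (_ : k ≤ N), S A N := by
      ext v
      simp only [mem_ofPred_eq, mem_iInter, mem_iUnion, frequently_atTop, exists_prop]
    have hanti : Antitone (fun k : ℕ => ⋃ N, ⋃ (_ : k ≤ N), S A N) := by
      intro a b hab v hv
      simp only [mem_iUnion, exists_prop] at hv ⊢
      obtain ⟨N, hN, hv⟩ := hv
      exact ⟨N, hab.trans hN, hv⟩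
    have hm : ∀ k : ℕ, MeasurableSet (⋃ N, ⋃ (_ : k ≤ N), S A N) := fun k =>
      MeasurableSet.iUnion fun N => MeasurableSet.iUnion fun _ => hSm A N
    have htend := tendsto_measure_iInter_atTop (μ := Q) (fun k => (hm k).nullMeasurableSet) hanti
      ⟨0, measure_ne_top _ _⟩
    have htend' : Tendsto (fun k : ℕ => Q.real (⋃ N, ⋃ (_ : k ≤ N), S A N)) atTop
        (𝓝 (Q.real {v | ∃ᶠ N in atTop, v ∈ S A N})) := by
      rw [e]
      exact (ENNReal.tendsto_toReal (measure_ne_top _ _)).comp htend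
    refine ge_of_tendsto' htend' fun k => ?_
    have hsubk : S A (k + 1) ⊆ ⋃ N, ⋃ (_ : k ≤ N), S A N := by
      intro v hv
      simp only [mem_iUnion, exists_prop]
      exact ⟨k + 1, by omega, hv⟩
    exact (hSmeas A (k + 1) (by omega)).trans (measureReal_mono hsubk (measure_ne_top _ _))
  -- almost sure
  have hae : ∀ᵐ v ∂Q, ∃ A : ℕ, ∃ᶠ N in atTop, v ∈ S A N := by
    have hsub : ∀ A : ℕ, Q.real {v | ¬ ∃ A : ℕ, ∃ᶠ N in atTop, v ∈ S A N} ≤
        B / ((A : ℝ) + 1) := by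
      intro A
      have h3 : {v | ¬ ∃ A : ℕ, ∃ᶠ N in atTop, v ∈ S A N} ⊆ {v | ∃ᶠ N in atTop, v ∈ S A N}ᶜ := by
        intro v hv hv'
        exact hv ⟨A, hv'⟩
      have hmset : MeasurableSet {v | ∃ᶠ N in atTop, v ∈ S A N} := by
        have e : {v | ∃ᶠ N in atTop, v ∈ S A N} = ⋂ k : ℕ, ⋃ N, ⋃ (_ : k ≤ N), S A N := by
          ext v
          simp only [mem_ofPred_eq, mem_iInter, mem_iUnion, frequently_atTop, exists_prop]
        rw [e]
        exact MeasurableSet.iInter fun k => MeasurableSet.iUnion fun N =>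
          MeasurableSet.iUnion fun _ => hSm A N
      refine (measureReal_mono h3 (measure_ne_top _ _)).trans ?_
      rw [probReal_compl_eq_one_sub hmset]
      have := hIO A
      linarith
    have hlim : Tendsto (fun A : ℕ => B / ((A : ℝ) + 1)) atTop (𝓝 0) :=
      (tendsto_const_nhds (x := B)).div_atTop
        (tendsto_atTop_add_const_right _ _ tendsto_natCast_atTop_atTop)
    have hle0 : Q.real {v | ¬ ∃ A : ℕ, ∃ᶠ N in atTop, v ∈ S A N} ≤ 0 := ge_of_tendsto' hlim hsub
    have heq0 : Q.real {v | ¬ ∃ A : ℕ, ∃ᶠ N in atTop, v ∈ S A N} = 0 :=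
      le_antisymm hle0 measureReal_nonneg
    rw [ae_iff]
    exact (measureReal_eq_zero_iff (measure_ne_top _ _)).1 heq0
  filter_upwards [hae] with v hv
  obtain ⟨A, hA⟩ := hv
  refine ⟨c / 2 / ((A : ℝ) + 1) ^ (1 / γ), by positivity, fun ε => ?_⟩
  refine (hA.and_eventually (eventually_ge_atTop 1)).mono ?_
  rintro N ⟨hN, hN1⟩
  have hN' : (0 : ℝ) < N := by exact_mod_cast hN1
  have hZ : 0 < Z P T ζ lam hh (fun n => om n v) N := by
    rw [Z_eq hK h N hN1]; exact VK_pos hK N hN1 fun n => (site_pos _ _ _ n).le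
  have h3 : (Z P T ζ lam hh (fun n => om n v) N) ^ γ < ((A : ℝ) + 1) * (N : ℝ) ^ (-(γ * α)) := by
    have h4 := Z_rpow_le_U (om := om) hK h hγ0 h1 lam hh N hN1 v
    have h5 : U K γ lam hh om N v < ((A : ℝ) + 1) * (N : ℝ) ^ (-(γ * α)) := by
      simpa [hS] using hN
    linarith
  have h4 : Z P T ζ lam hh (fun n => om n v) N ≤ ((A : ℝ) + 1) ^ (1 / γ) * (N : ℝ) ^ (-α) := by
    have h5 := Real.rpow_le_rpow (Real.rpow_nonneg hZ.le _) h3.le
      (show (0 : ℝ) ≤ 1 / γ by positivity)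
    rw [← Real.rpow_mul hZ.le, Real.mul_rpow (by positivity) (Real.rpow_nonneg hN'.le _),
      ← Real.rpow_mul hN'.le] at h5
    have e1 : γ * (1 / γ) = 1 := by field_simp
    have e2 : -(γ * α) * (1 / γ) = -α := by field_simp
    rw [e1, Real.rpow_one, e2] at h5
    exact h5
  have h5 := up_lower (P := P) hK h N lam hh (fun n => om n v) ε
  have h6 : c / 2 * (N : ℝ) ^ (-α) ≤ gapTail K N / 2 := by have := htl N hN1; linarith
  unfold polymer
  rw [le_div_iff₀ hZ]
  calc c / 2 / ((A : ℝ) + 1) ^ (1 / γ) * Z P T ζ lam hh (fun n => om n v) N ≤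
        c / 2 / ((A : ℝ) + 1) ^ (1 / γ) * (((A : ℝ) + 1) ^ (1 / γ) * (N : ℝ) ^ (-α)) :=
        mul_le_mul_of_nonneg_left h4 (by positivity)
    _ = c / 2 * (N : ℝ) ^ (-α) := by
        have : ((A : ℝ) + 1) ^ (1 / γ) ≠ 0 := (Real.rpow_pos_of_pos (by positivity) _).ne'
        field_simp
    _ ≤ _ := h6.trans h5

end Pool.Agent.Helper964.Copolymer
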