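import Mathlib
import Pool.Agent.Helper964.Disorder

open MeasureTheory ProbabilityTheory Set Filter Topology
open scoped ENNReal

namespace Pool.Agent.Helper964.Copolymer

variable {K : ℕ → ℝ} {α : ℝ} {Ω : Type*} [MeasurableSpace Ω] {P : Measure Ω}
  {T ζ : ℕ → Ω → ℕ} {Ω' : Type*} [MeasurableSpace Ω'] {Q : Measure Ω'} {om : ℕ → Ω' → ℝ}

/-- length of the `j`-th stretch -/
noncomputable def len (L : ℝ) (j : ℕ) : ℕ := ⌈Real.log ((j : ℝ) + 2) / L⌉₊

lemma len_pos {L : ℝ} (hL : 0 < L) (j : ℕ) : 1 ≤ len L j := by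
  have h1 : 0 < Real.log ((j : ℝ) + 2) := Real.log_pos (by
    have := Nat.cast_nonneg (α := ℝ) j; linarith)
  exact Nat.one_le_iff_ne_zero.2 (Nat.pos_iff_ne_zero.1 (Nat.ceil_pos.2 (by positivity)))

lemma len_mono {L : ℝ} (hL : 0 < L) : Monotone (len L) := by
  intro a b hab
  refine Nat.ceil_mono (div_le_div_of_nonneg_right (Real.log_le_log (by positivity) ?_) hL.le)
  have : (a : ℝ) ≤ b := by exact_mod_cast hab
  linarith

lemma le_len {L : ℝ} (hL : 0 < L) (j : ℕ) : Real.log ((j : ℝ) + 2) ≤ L * len L j := by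
  have := Nat.le_ceil (Real.log ((j : ℝ) + 2) / L)
  rw [div_le_iff₀ hL] at this
  unfold len; linarith

lemma len_le {L : ℝ} (hL : 0 < L) (j : ℕ) : (len L j : ℝ) ≤ Real.log ((j : ℝ) + 2) / L + 1 := by
  have h1 : 0 < Real.log ((j : ℝ) + 2) := Real.log_pos (by
    have := Nat.cast_nonneg (α := ℝ) j; linarith)
  exact (Nat.ceil_lt_add_one (by positivity)).le

/-- start of the `j`-th stretch -/
noncomputable def pos (L : ℝ) (j : ℕ) : ℕ := (j + 1) * len L j

/-- all the charges of the `j`-th stretch are at most `-x` -/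
def stretch (om : ℕ → Ω' → ℝ) (L x : ℝ) (j : ℕ) : Set Ω' :=
  ⋂ i ∈ Finset.Ioc (pos L j) (pos L j + len L j), {v | om i v ≤ -x}

lemma stretch_measurable (hQ : IsDisorder Q om) (L x : ℝ) (j : ℕ) :
    MeasurableSet (stretch om L x j) :=
  Finset.measurableSet_biInter _ fun i _ => measurableSet_le (hQ.meas i) measurable_const

lemma biInter_meas (hQ : IsDisorder Q om) (x : ℝ) (S : Finset ℕ) :
    Q (⋂ i ∈ S, {v | om i v ≤ -x}) = (Q {v | om 0 v ≤ -x}) ^ S.card := by
  rw [hQ.indep.meas_biInter (s := fun i => {v | om i v ≤ -x}) (S := S)]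
  · have : ∀ i ∈ S, Q {v | om i v ≤ -x} = Q {v | om 0 v ≤ -x} := fun i _ =>
      (hQ.ident i).measure_mem_eq (s := Iic (-x)) measurableSet_Iic
    rw [Finset.prod_congr rfl this, Finset.prod_const]
  · intro i _
    exact ⟨Iic (-x), measurableSet_Iic, rfl⟩

lemma stretch_disjoint {L : ℝ} (hL : 0 < L) {j k : ℕ} (hjk : j ≠ k) :
    Disjoint (Finset.Ioc (pos L j) (pos L j + len L j))
      (Finset.Ioc (pos L k) (pos L k + len L k)) := by
  have key : ∀ a b : ℕ, a < b → pos L a + len L a ≤ pos L b := by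
    intro a b hab
    have h1 := len_mono hL hab.le
    unfold pos
    calc (a + 1) * len L a + len L a = (a + 2) * len L a := by ring
      _ ≤ (b + 1) * len L b := Nat.mul_le_mul (by omega) h1
  rw [Finset.disjoint_left]
  intro i hi hi'
  rw [Finset.mem_Ioc] at hi hi'
  rcases lt_or_gt_of_ne hjk with h | h
  · have := key j k h; omega
  · have := key k j h; omega

lemma stretch_indep (hQ : IsDisorder Q om) {L : ℝ} (hL : 0 < L) (x : ℝ) :
    iIndepSet (stretch om L x) Q := by
  classical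
  rw [iIndepSet_iff_meas_biInter (fun j => stretch_measurable hQ L x j)]
  intro s
  have e : (⋂ j ∈ s, stretch om L x j) =
      ⋂ i ∈ s.biUnion (fun j => Finset.Ioc (pos L j) (pos L j + len L j)), {v | om i v ≤ -x} := by
    ext v
    simp only [stretch, mem_iInter, Finset.mem_biUnion]
    constructor
    · rintro h i ⟨j, hj, hi⟩; exact h j hj i hi
    · intro h j hj i hi; exact h i ⟨j, hj, hi⟩
  rw [e, biInter_meas hQ, Finset.card_biUnion (fun j _ k _ hjk => stretch_disjoint hL hjk),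
    ← Finset.prod_pow_eq_pow_sum]
  exact Finset.prod_congr rfl fun j _ => (biInter_meas hQ x _).symm

lemma stretch_io (hQ : IsDisorder Q om) {x q L : ℝ} (hq0 : 0 < q) (hL : 0 < L)
    (hqL : L = -Real.log q) (hqx : ENNReal.ofReal q ≤ Q {v | om 0 v ≤ -x}) :
    ∀ᵐ v ∂Q, ∃ᶠ j in atTop, v ∈ stretch om L x j := by
  have hprob := hQ.indep.isProbabilityMeasure
  have hge : ∀ j : ℕ, ENNReal.ofReal (q / ((j : ℝ) + 2)) ≤ Q (stretch om L x j) := by
    intro j
    unfold stretch
    rw [biInter_meas hQ]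
    have hcard : (Finset.Ioc (pos L j) (pos L j + len L j)).card = len L j := by simp
    rw [hcard]
    have h1 : q / ((j : ℝ) + 2) ≤ q ^ (len L j) := by
      have hj : (0 : ℝ) < (j : ℝ) + 2 := by positivity
      have h2 : q ^ (len L j) = Real.exp (-(L * len L j)) := by
        rw [hqL, ← Real.rpow_natCast, Real.rpow_def_of_pos hq0]; congr 1; ring
      have h3 : q / ((j : ℝ) + 2) = Real.exp (-(Real.log ((j : ℝ) + 2) + L)) := by
        rw [hqL, neg_add, neg_neg, Real.exp_add, Real.exp_neg, Real.exp_log hj, Real.exp_log hq0]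
        field_simp
      rw [h2, h3]
      apply Real.exp_le_exp.2
      have h4 := len_le hL j
      have h5 : L * len L j ≤ L * (Real.log ((j : ℝ) + 2) / L + 1) :=
        mul_le_mul_of_nonneg_left h4 hL.le
      have h6 : L * (Real.log ((j : ℝ) + 2) / L + 1) = Real.log ((j : ℝ) + 2) + L := by
        field_simp
      linarith
    calc ENNReal.ofReal (q / ((j : ℝ) + 2)) ≤ ENNReal.ofReal (q ^ (len L j)) :=
          ENNReal.ofReal_le_ofReal h1
      _ = (ENNReal.ofReal q) ^ (len L j) := ENNReal.ofReal_pow hq0.le _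
      _ ≤ _ := pow_le_pow_left' hqx _
  have hsum : ∑' j, Q (stretch om L x j) = ∞ := by
    by_contra hne
    have h1 : ∑' j : ℕ, ENNReal.ofReal (q / ((j : ℝ) + 2)) ≠ ∞ :=
      ne_top_of_le_ne_top hne (ENNReal.tsum_le_tsum hge)
    have h2 : Summable fun j : ℕ => q / ((j : ℝ) + 2) := by
      have h3 := ENNReal.summable_toReal h1
      refine h3.congr fun j => ?_
      exact ENNReal.toReal_ofReal (by positivity)
    have h3 : Summable fun j : ℕ => 1 / ((j : ℝ) + 2) := by
      have := h2.mul_left (1 / q)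
      refine this.congr fun j => ?_
      field_simp
    have h4 : Summable fun j : ℕ => 1 / (j : ℝ) := by
      rw [← summable_nat_add_iff 2]
      refine h3.congr fun j => ?_
      push_cast; ring
    exact Real.not_summable_one_div_natCast h4
  have h1 := measure_limsup_eq_one (fun j => stretch_measurable hQ L x j)
    (stretch_indep hQ hL x) hsum
  have h2 : ∀ᵐ v ∂Q, v ∈ limsup (stretch om L x) atTop := by
    have hm : MeasurableSet (limsup (stretch om L x) atTop) :=
      MeasurableSet.measurableSet_limsup fun j => stretch_measurable hQ L x j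
    rw [ae_iff]
    have : {v | v ∉ limsup (stretch om L x) atTop} = (limsup (stretch om L x) atTop)ᶜ := rfl
    rw [this, prob_compl_eq_zero_iff hm]
    exact h1
  filter_upwards [h2] with v hv
  rwa [mem_limsup_iff_frequently_mem] at hv

lemma tendsto_len_bound {η a L : ℝ} (hη : 0 < η) (ha : 0 < a) (hL : 0 < L) :
    Tendsto (fun j : ℕ => (len L j : ℝ) ^ a * ((j : ℝ) + 2) ^ (-η)) atTop (𝓝 0) := by
  set κ : ℝ := η / (2 * a) with hκ
  have hκ0 : 0 < κ := by positivity
  set C : ℝ := 1 / (κ * L) + 1 with hC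
  have hC0 : 0 < C := by positivity
  have hle : ∀ j : ℕ, (len L j : ℝ) ^ a * ((j : ℝ) + 2) ^ (-η) ≤
      C ^ a * ((j : ℝ) + 2) ^ (-(η / 2)) := by
    intro j
    have hj : (0 : ℝ) < (j : ℝ) + 2 := by positivity
    have hj1 : (1 : ℝ) ≤ (j : ℝ) + 2 := by have := Nat.cast_nonneg (α := ℝ) j; linarith
    have h1 : (len L j : ℝ) ≤ C * ((j : ℝ) + 2) ^ κ := by
      refine (len_le hL j).trans ?_
      have h2 := Real.log_le_rpow_div hj.le hκ0
      have h3 : (1 : ℝ) ≤ ((j : ℝ) + 2) ^ κ := Real.one_le_rpow hj1 hκ0.le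
      calc Real.log ((j : ℝ) + 2) / L + 1 ≤ ((j : ℝ) + 2) ^ κ / κ / L + ((j : ℝ) + 2) ^ κ :=
            add_le_add (div_le_div_of_nonneg_right h2 hL.le) h3
        _ = C * ((j : ℝ) + 2) ^ κ := by rw [hC]; field_simp
    have h2 : (len L j : ℝ) ^ a ≤ C ^ a * ((j : ℝ) + 2) ^ (η / 2) := by
      calc (len L j : ℝ) ^ a ≤ (C * ((j : ℝ) + 2) ^ κ) ^ a :=
            Real.rpow_le_rpow (Nat.cast_nonneg _) h1 ha.le
        _ = _ := by
            rw [Real.mul_rpow hC0.le (Real.rpow_nonneg hj.le _), ← Real.rpow_mul hj.le]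
            congr 2
            rw [hκ]; field_simp
    calc (len L j : ℝ) ^ a * ((j : ℝ) + 2) ^ (-η) ≤
          C ^ a * ((j : ℝ) + 2) ^ (η / 2) * ((j : ℝ) + 2) ^ (-η) :=
          mul_le_mul_of_nonneg_right h2 (Real.rpow_nonneg hj.le _)
      _ = C ^ a * ((j : ℝ) + 2) ^ (-(η / 2)) := by
          rw [mul_assoc, ← Real.rpow_add hj]; congr 2; ring
  have hlim : Tendsto (fun j : ℕ => C ^ a * ((j : ℝ) + 2) ^ (-(η / 2))) atTop (𝓝 0) := by
    have h1 : Tendsto (fun j : ℕ => (j : ℝ) + 2) atTop atTop :=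
      tendsto_atTop_add_const_right _ _ tendsto_natCast_atTop_atTop
    have h2 := (tendsto_rpow_neg_atTop (show 0 < η / 2 by positivity)).comp h1
    simpa using h2.const_mul (C ^ a)
  refine squeeze_zero (fun j => ?_) hle hlim
  have : (0 : ℝ) < (j : ℝ) + 2 := by positivity
  positivity

/-- If single stretches are favourable enough then the polymer probability of `upEvent` gets
arbitrarily small, almost surely. -/
lemma liminf_zero (hK : IsInterarrival K α) (h : IsSignedRenewal P K T ζ)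
    (hQ : IsDisorder Q om) {lam hh x q : ℝ} (hlam : 0 < lam) (hq0 : 0 < q) (hq1 : q < 1)
    (hqx : ENNReal.ofReal q ≤ Q {v | om 0 v ≤ -x})
    (hgain : -Real.log q < 2 * lam * (x - hh)) :
    ∀ᵐ v ∂Q, ∀ ε : ℝ, ε < 1 → ∀ δ : ℝ, 0 < δ → ∃ᶠ N : ℕ in atTop,
      polymer P T ζ lam hh (fun n => om n v) N (upEvent T ζ ε N) < δ := by
  set L : ℝ := -Real.log q with hLdef
  have hL : 0 < L := by have := Real.log_neg hq0 hq1; linarith
  have hα := hK.alpha_pos
  obtain ⟨c, hc, hhaz⟩ := hK.hazard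
  obtain ⟨c', hc', htl⟩ := hK.tail_ge
  set η : ℝ := 2 * lam * (x - hh) / L - 1 with hη
  have hη0 : 0 < η := by
    rw [hη, sub_pos, lt_div_iff₀ hL]; linarith
  filter_upwards [stretch_io hQ hq0 hL hLdef hqx] with v hv ε hε δ hδ
  -- convergence of the bound
  have hbound := (tendsto_len_bound (a := 1 + α) hη0 (by linarith) hL).const_mul (2 / (c * c'))
  rw [mul_zero] at hbound
  have hev1 := hbound.eventually_lt_const hδ
  -- the window condition
  have hev2 : ∀ᶠ j : ℕ in atTop, ε * ((pos L j + len L j : ℕ) : ℝ) ≤ pos L j + 1 := by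
    have h1 : Tendsto (fun j : ℕ => ((j : ℝ) + 1) * (1 - ε)) atTop atTop :=
      (tendsto_atTop_add_const_right _ _ tendsto_natCast_atTop_atTop).atTop_mul_const
        (by linarith)
    filter_upwards [h1.eventually_ge_atTop ε] with j hj
    have hl : (0 : ℝ) ≤ len L j := Nat.cast_nonneg _
    unfold pos
    push_cast
    have : ε * (((j : ℝ) + 1) * len L j + len L j) ≤ ((j : ℝ) + 1) * len L j := by
      have h2 : (ε * ((j : ℝ) + 2)) * len L j ≤ ((j : ℝ) + 1) * len L j :=
        mul_le_mul_of_nonneg_right (by nlinarith) hl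
      calc _ = (ε * ((j : ℝ) + 2)) * len L j := by ring
        _ ≤ _ := h2
    linarith
  have hN : Tendsto (fun j : ℕ => pos L j + len L j) atTop atTop := by
    refine tendsto_atTop_mono (f := fun j : ℕ => j) (fun j => ?_) tendsto_id
    have := len_pos hL j
    unfold pos
    nlinarith
  refine hN.frequently ?_
  refine (hv.and_eventually (hev1.and hev2)).mono ?_
  rintro j ⟨hj, hj1, hj2⟩
  set m := pos L j with hm
  set l := len L j with hl
  have hl1 : 1 ≤ l := len_pos hL j
  have hm1 : 1 ≤ m := by rw [hm]; unfold pos; nlinarith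
  have hm' : (0 : ℝ) < m := by exact_mod_cast hm1
  have hl' : (0 : ℝ) < l := by exact_mod_cast hl1
  have hj' : (0 : ℝ) < (j : ℝ) + 2 := by positivity
  set G := site lam hh (fun n => om n v) with hG
  have hGp : ∀ n, 0 < G n := fun n => site_pos _ _ _ n
  have hVm : 0 < VK K m G := VK_pos hK m hm1 fun n => (hGp n).le
  have hVml : 0 < VK K (m + l) G := VK_pos hK (m + l) (by omega) fun n => (hGp n).le
  -- lower bound for the product of site weights
  have hprod : ((j : ℝ) + 2) ^ (1 + η) ≤ ∏ n ∈ Finset.range l, G (m + n) := by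
    have h1 : ∀ n ∈ Finset.range l, Real.exp (2 * lam * (x - hh)) ≤ G (m + n) := by
      intro n hn
      have hn' := Finset.mem_range.1 hn
      have h2 : om (m + n + 1) v ≤ -x := by
        have h3 : v ∈ stretch om L x j := hj
        unfold stretch at h3
        simp only [mem_iInter] at h3
        exact h3 (m + n + 1) (Finset.mem_Ioc.2 ⟨by omega, by omega⟩)
      rw [hG, site]
      apply Real.exp_le_exp.2
      nlinarith
    have h2 := Finset.prod_le_prod (s := Finset.range l)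
      (f := fun _ => Real.exp (2 * lam * (x - hh))) (fun _ _ => (Real.exp_pos _).le) h1
    refine le_trans ?_ h2
    rw [Finset.prod_const, Finset.card_range, ← Real.exp_nat_mul, Real.rpow_def_of_pos hj']
    apply Real.exp_le_exp.2
    have h3 := le_len hL j
    have h4 : 2 * lam * (x - hh) = (1 + η) * L := by rw [hη]; field_simp; ring
    rw [h4]
    calc Real.log ((j : ℝ) + 2) * (1 + η) ≤ (L * l) * (1 + η) :=
          mul_le_mul_of_nonneg_right h3 (by linarith)
      _ = _ := by ring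
  -- comparison
  have hlow := V_lower hK hc hhaz l hl1 m hm1 G fun n => (hGp n).le
  have hlow' : c / m * (gapTail K l / 2) * (∏ n ∈ Finset.range l, G (m + n)) * VK K m G ≤
      VK K (m + l) G := hlow
  have hupp := up_upper (P := P) hK h m l hm1 lam hh (fun n => om n v) ε (by
    have := hj2
    exact_mod_cast this)
  unfold polymer
  rw [Z_eq hK h (m + l) (by omega)]
  have hR : c / m * (c' * (l : ℝ) ^ (-α) / 2) * ((j : ℝ) + 2) ^ (1 + η) ≤
      c / m * (gapTail K l / 2) * ∏ n ∈ Finset.range l, G (m + n) := by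
    refine mul_le_mul (mul_le_mul_of_nonneg_left ?_ (by positivity)) hprod (by positivity) ?_
    · have := htl l hl1; linarith
    · have := hK.tail_nonneg l; positivity
  have hRpos : 0 < c / m * (c' * (l : ℝ) ^ (-α) / 2) * ((j : ℝ) + 2) ^ (1 + η) := by positivity
  have h1 : (c / m * (c' * (l : ℝ) ^ (-α) / 2) * ((j : ℝ) + 2) ^ (1 + η)) * VK K m G ≤
      VK K (m + l) G := (mul_le_mul_of_nonneg_right hR hVm.le).trans hlow'
  have h2 : (∫ w in upEvent T ζ ε (m + l), weight T ζ lam hh (fun n => om n v) (m + l) w ∂P) /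
      VK K (m + l) G ≤ (c / m * (c' * (l : ℝ) ^ (-α) / 2) * ((j : ℝ) + 2) ^ (1 + η))⁻¹ := by
    rw [div_le_iff₀ hVml]
    refine hupp.trans ?_
    rw [← div_eq_inv_mul, le_div_iff₀ hRpos]
    linarith
  refine lt_of_le_of_lt (h2.trans ?_) hj1
  -- compute the inverse
  have hmj : (m : ℝ) = ((j : ℝ) + 1) * l := by rw [hm, hl]; unfold pos; push_cast; ring
  have h3 : (c / m * (c' * (l : ℝ) ^ (-α) / 2) * ((j : ℝ) + 2) ^ (1 + η))⁻¹ =
      2 / (c * c') * ((m : ℝ) * (l : ℝ) ^ α * ((j : ℝ) + 2) ^ (-(1 + η))) := by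
    rw [Real.rpow_neg hl'.le, Real.rpow_neg hj'.le]
    have hA : (l : ℝ) ^ α ≠ 0 := (Real.rpow_pos_of_pos hl' _).ne'
    have hB : ((j : ℝ) + 2) ^ (1 + η) ≠ 0 := (Real.rpow_pos_of_pos hj' _).ne'
    field_simp
  rw [h3]
  refine mul_le_mul_of_nonneg_left ?_ (by positivity)
  rw [hmj, show -(1 + η) = -η - 1 by ring, Real.rpow_sub_one hj'.ne', Real.rpow_add hl',
    Real.rpow_one]
  have h4 : ((j : ℝ) + 1) / ((j : ℝ) + 2) ≤ 1 := by rw [div_le_one hj']; linarith
  have h5 : 0 ≤ (l : ℝ) * (l : ℝ) ^ α * ((j : ℝ) + 2) ^ (-η) := by positivity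
  calc ((j : ℝ) + 1) * l * (l : ℝ) ^ α * (((j : ℝ) + 2) ^ (-η) / ((j : ℝ) + 2)) =
        ((j : ℝ) + 1) / ((j : ℝ) + 2) * ((l : ℝ) * (l : ℝ) ^ α * ((j : ℝ) + 2) ^ (-η)) := by
        field_simp
    _ ≤ 1 * ((l : ℝ) * (l : ℝ) ^ α * ((j : ℝ) + 2) ^ (-η)) := mul_le_mul_of_nonneg_right h4 h5
    _ = _ := by ring

end Pool.Agent.Helper964.Copolymer
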